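import Mathlib
import Pool.Agent.Helper11.CanTypes

/-!
# Related flags: definitions
-/

universe u v w t

open CategoryTheory TensorProduct

namespace Pool.Agent.Helper11.Obs

open Pool.Agent.Helper10 SmProjVar

/-- `δ` is the determinant of the map `g` on `Ω ⊗ F`: for some basis `b` of `F` and some matrix `ρ`
over `Ω`, `g(1 ⊗ b j) = ∑ i, ρ i j (1 ⊗ b i)` for all `j`, and `δ = det ρ`. -/
def IsDetOn {K : Type v} [Field K] (Ω : Type t) [Field Ω] [Algebra K Ω] {M : Type w}
    [AddCommGroup M] [Module K M] (g : Ω ⊗[K] M → Ω ⊗[K] M) (F : Submodule K M) (δ : Ω) : Prop :=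
  ∃ (m : ℕ) (b : Module.Basis (Fin m) K F) (ρ : Matrix (Fin m) (Fin m) Ω),
    (∀ j, g (1 ⊗ₜ[K] (b j : M)) = ∑ i, ρ i j • ((1 : Ω) ⊗ₜ[K] (b i : M))) ∧ δ = ρ.det

variable {k : Type u} [Field k] {K : Type v} [Field K] (W : CohomologyData.{u, v, w} k K)

/-- The group generated by the multiplier `χ` of the symmetry `g` and by the eigenvalues of `g` on
`Ω ⊗ H(X)`. (If `X` is a point, this is the group of the powers of `χ`.) -/
def eigenvalueGroup (X : SmProjVar k) (Ω : Type t) [Field Ω] [Algebra K Ω]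
    (g : ∀ X : SmProjVar k, Ω ⊗[K] W.H X → Ω ⊗[K] W.H X) (χ : Ω) : Subgroup Ωˣ :=
  Subgroup.closure {a | (a : Ω) = χ ∨ ∃ y, y ≠ 0 ∧ g X y = (a : Ω) • y}

section Flags

variable (X : SmProjVar k) {P : ℕ} (V : Fin P → SmProjVar k) (E : Subspaces W V)
  (F : ∀ c : Fin P, ℕ → Submodule K (W.H (V c)))

/-- `F c i` is mapped to `F c' i` by all maps induced by algebraic correspondences from `V c` to
`V c'` which map `E c` to `E c'`. -/
def StableUnderCorrespondences : Prop :=
  ∀ c c' (u : W.H (V c) → W.H (V c')), W.IsAlgebraicMap (V c) (V c') u →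
    (∀ y ∈ E c, u y ∈ E c') → ∀ i, ∀ y ∈ F c i, u y ∈ F c' i

/-- `Ω ⊗ F c i` is stable under all symmetries of the cohomology theory, with coefficients in any
extension `Ω` of `K`, which stabilise the `E c`. -/
def StableUnderSymmetries : Prop :=
  ∀ (Ω : Type t) [Field Ω] [Algebra K Ω]
    (g : ∀ X : SmProjVar k, Ω ⊗[K] W.H X → Ω ⊗[K] W.H X) (χ : Ω), IsSymmetry W Ω g χ →
    (∀ c, Stabilises Ω (g (V c)) (E c)) → ∀ c i, Stabilises Ω (g (V c)) (F c i)

/-- For all symmetries `g` which stabilise the `E c`, with coefficients in an algebraically closed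
extension `Ω` of `K`, some positive power of the product of the determinants of `g` on all the
`Ω ⊗ F c i` is in the group generated by the multiplier of `g` and the eigenvalues of `g` on
`Ω ⊗ H(X)`. -/
def DeterminantRelation : Prop :=
  ∀ (Ω : Type t) [Field Ω] [Algebra K Ω] [IsAlgClosed Ω]
    (g : ∀ X : SmProjVar k, Ω ⊗[K] W.H X → Ω ⊗[K] W.H X) (χ : Ω), IsSymmetry W Ω g χ →
    (∀ c, Stabilises Ω (g (V c)) (E c)) → ∀ (N : ℕ) (δ : Fin P → Fin N → Ωˣ),
    (∀ c, F c N = ⊥) → (∀ c (i : Fin N), IsDetOn Ω (g (V c)) (F c i) (δ c i)) →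
      ∃ m : ℕ, 0 < m ∧ (∏ c, ∏ i, δ c i) ^ m ∈ eigenvalueGroup W X Ω g χ

/-- Related flags in the subspaces `E c` of the `H(V c)` (relative to `X`): decreasing sequences
`F c 0 ⊇ F c 1 ⊇ … ⊇ 0` (possibly with repetitions) of totally isotropic subspaces of the `E c`, with
`F c i = 0` for large `i`, stable under correspondences and symmetries, such that the determinants
of the symmetries satisfy the above relation. -/
structure AreRelatedFlags : Prop where
  le : ∀ c i, F c i ≤ E c
  antitone : ∀ c, Antitone (F c)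
  eventually_zero : ∃ N, ∀ c, F c N = ⊥
  isotropic : ∀ c i, IsTotallyIsotropic W (V c) (F c i)
  correspondences : StableUnderCorrespondences W V E F
  symmetries : StableUnderSymmetries.{u, v, w, t} W V E F
  relation : DeterminantRelation.{u, v, w, t} W X V E F

end Flags

/-- The filtrations `F c`, indexed by the real numbers, jump only at multiples of `1 / D`, and the
flags `F c (1 / D) ⊇ F c (2 / D) ⊇ …` are related. -/
structure IsRelatedFiltration (X : SmProjVar k) {P : ℕ} (V : Fin P → SmProjVar k)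
    (E : Subspaces W V) (F : Filtrations W V) (D : ℕ) : Prop where
  pos : 0 < D
  jumps : ∀ c a, F c a = F c (⌈(D : ℝ) * a⌉ / D)
  related : AreRelatedFlags.{u, v, w, t} W X V E fun c i => F c (((i + 1 : ℕ) : ℝ) / D)

end Pool.Agent.Helper11.Obs
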