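import Mathlib

/-!
# DR-1: the shortest point of a rational polyhedron is rational

HINT. Let `C₀` be the set of the tight constraints `(a, b) ∈ C` (`∑ i, a i * γ i = b`) and let `L` be the
space of all `v` with `∑ i, a i * v i = 0` for all `(a, b) ∈ C₀` and all `a ∈ E`. For `v ∈ L` the point
`γ + t • v` satisfies all constraints for small `|t|` (finitely many constraints are not tight), so
`‖γ‖ ≤ ‖γ + t • v‖` for small `|t|`, which gives `inner γ v = 0`. So `γ ∈ Lᗮ`, and `Lᗮ` is the real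
span of the vectors `a` of `C₀` and `E` (`Submodule.orthogonal_orthogonal` or a dimension-free
argument). Choose a `ℚ`-linear map `φ : ℝ → ℚ` with `φ q = q` for `q : ℚ` (extend from the `ℚ`-span of
`1`, `Submodule.exists_isCompl`, `LinearMap.exists_leftInverse_of_injective`), and let `γ' i = φ (γ i)`.
Then `∑ a i * γ' i = φ (∑ a i * γ i)`, so `γ - γ' ∈ L`; and if `γ = ∑ r_j a_j` then
`γ' = ∑ φ (r_j) a_j ∈ Lᗮ`. So `γ = γ'` is rational; take a common denominator.
-/

open Finset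

namespace Pool.Agent.Helper11.Dr

/-- The real vector of an integer vector. -/
private def vec {ι : Type*} (a : ι → ℤ) : EuclideanSpace ℝ ι := WithLp.toLp 2 (fun i => (a i : ℝ))

private theorem vec_apply {ι : Type*} (a : ι → ℤ) (i : ι) : vec a i = (a i : ℝ) := rfl

private theorem inner_vec {ι : Type*} [Fintype ι] (a : ι → ℤ) (v : EuclideanSpace ℝ ι) :
    inner ℝ (vec a) v = ∑ i, (a i : ℝ) * v i := by
  rw [PiLp.inner_apply]
  refine Finset.sum_congr rfl fun i _ => ?_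
  simp [vec_apply, mul_comm]

private theorem exists_phi : ∃ φ : ℝ →ₗ[ℚ] ℚ, ∀ q : ℚ, φ (q : ℝ) = q := by
  obtain ⟨g, hg⟩ := LinearMap.exists_leftInverse_of_injective (Algebra.linearMap ℚ ℝ)
    (LinearMap.ker_eq_bot.2 (algebraMap ℚ ℝ).injective)
  refine ⟨g, fun q => ?_⟩
  have := LinearMap.congr_fun hg q
  simpa using this

private theorem phi_int_mul (φ : ℝ →ₗ[ℚ] ℚ) (a : ℤ) (r : ℝ) : φ ((a : ℝ) * r) = (a : ℚ) * φ r := by
  have h : (a : ℝ) * r = (a : ℚ) • r := by
    rw [Rat.smul_def]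
    push_cast
    ring
  rw [h, map_smul, smul_eq_mul]

/-- DR-1 -/
theorem rational_of_minimal {ι : Type*} [Fintype ι] (C : Set ((ι → ℤ) × ℤ)) (hC : C.Finite)
    (E : Set (ι → ℤ)) (γ : EuclideanSpace ℝ ι)
    (h1 : ∀ p ∈ C, (p.2 : ℝ) ≤ ∑ i, (p.1 i : ℝ) * γ i) (h2 : ∀ a ∈ E, ∑ i, (a i : ℝ) * γ i = 0)
    (hmin : ∀ γ' : EuclideanSpace ℝ ι, (∀ p ∈ C, (p.2 : ℝ) ≤ ∑ i, (p.1 i : ℝ) * γ' i) →
      (∀ a ∈ E, ∑ i, (a i : ℝ) * γ' i = 0) → ‖γ‖ ≤ ‖γ'‖) :
    ∃ D : ℕ, 0 < D ∧ ∀ i, ∃ m : ℤ, (D : ℝ) * γ i = m := by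
  classical
  obtain ⟨φ, hφ⟩ := exists_phi
  let S : Set (ι → ℤ) := {a | ∃ b : ℤ, (a, b) ∈ C ∧ ∑ i, (a i : ℝ) * γ i = b} ∪ E
  let W : Submodule ℝ (EuclideanSpace ℝ ι) := Submodule.span ℝ (vec '' S)
  have hWmem : ∀ v : EuclideanSpace ℝ ι, v ∈ Wᗮ ↔ ∀ a ∈ S, ∑ i, (a i : ℝ) * v i = 0 := by
    intro v
    constructor
    · intro hv a ha
      rw [← inner_vec]
      exact (Submodule.mem_orthogonal _ _).1 hv _ (Submodule.subset_span ⟨a, ha, rfl⟩)
    · intro h
      rw [Submodule.mem_orthogonal]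
      intro u hu
      induction hu using Submodule.span_induction with
      | mem x hx =>
        obtain ⟨a, ha, rfl⟩ := hx
        rw [inner_vec]
        exact h a ha
      | zero => simp
      | add x y _ _ hx hy => rw [inner_add_left, hx, hy, add_zero]
      | smul r x _ hx => rw [inner_smul_left, hx, mul_zero]
  -- sums along lines
  have hline : ∀ (a : ι → ℤ) (v : EuclideanSpace ℝ ι) (t : ℝ),
      ∑ i, (a i : ℝ) * (γ + t • v) i = ∑ i, (a i : ℝ) * γ i + t * ∑ i, (a i : ℝ) * v i := by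
    intro a v t
    rw [← inner_vec, ← inner_vec, ← inner_vec, inner_add_right, inner_smul_right]
  -- step 1
  have hort : ∀ v ∈ Wᗮ, inner ℝ γ v = 0 := by
    intro v hv
    rw [hWmem] at hv
    have hev : ∀ᶠ t in nhds (0 : ℝ), ∀ p ∈ C,
        (p.2 : ℝ) ≤ ∑ i, (p.1 i : ℝ) * (γ + t • v) i := by
      rw [Filter.eventually_all_finite hC]
      intro p hp
      by_cases htight : ∑ i, (p.1 i : ℝ) * γ i = p.2
      · refine Filter.Eventually.of_forall fun t => ?_
        rw [hline, hv p.1 (Or.inl ⟨p.2, hp, htight⟩), htight]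
        simp
      · have hlt : (p.2 : ℝ) < ∑ i, (p.1 i : ℝ) * γ i := lt_of_le_of_ne (h1 p hp) (Ne.symm htight)
        have hcont : Filter.Tendsto
            (fun t : ℝ => ∑ i, (p.1 i : ℝ) * γ i + t * ∑ i, (p.1 i : ℝ) * v i) (nhds 0)
            (nhds (∑ i, (p.1 i : ℝ) * γ i + 0 * ∑ i, (p.1 i : ℝ) * v i)) := by
          apply Continuous.tendsto
          fun_prop
        rw [zero_mul, add_zero] at hcont
        filter_upwards [hcont.eventually (lt_mem_nhds hlt)] with t ht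
        rw [hline]
        exact ht.le
    have hloc : IsLocalMin (fun t : ℝ => ‖γ‖ ^ 2 + t * (2 * inner ℝ γ v) + t ^ 2 * ‖v‖ ^ 2) 0 := by
      filter_upwards [hev] with t ht
      have hn : ‖γ‖ ≤ ‖γ + t • v‖ := by
        refine hmin _ ht fun a ha => ?_
        rw [hline, h2 a ha, hv a (Or.inr ha)]
        simp
      have hexp : ‖γ + t • v‖ ^ 2 = ‖γ‖ ^ 2 + t * (2 * inner ℝ γ v) + t ^ 2 * ‖v‖ ^ 2 := by
        rw [norm_add_sq_real, inner_smul_right, norm_smul, mul_pow, Real.norm_eq_abs, sq_abs]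
        ring
      have hsq : ‖γ‖ ^ 2 ≤ ‖γ + t • v‖ ^ 2 := pow_le_pow_left₀ (norm_nonneg _) hn 2
      rw [hexp] at hsq
      simpa using hsq
    have hder : HasDerivAt (fun t : ℝ => ‖γ‖ ^ 2 + t * (2 * inner ℝ γ v) + t ^ 2 * ‖v‖ ^ 2)
        (0 + 1 * (2 * inner ℝ γ v) + (2 * (0 : ℝ) ^ (2 - 1) * 1) * ‖v‖ ^ 2) 0 := by
      refine HasDerivAt.add (HasDerivAt.add (hasDerivAt_const _ _) ?_) ?_
      · exact (hasDerivAt_id (0 : ℝ)).mul_const _
      · exact ((hasDerivAt_id (0 : ℝ)).pow 2).mul_const _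
    have := hloc.hasDerivAt_eq_zero hder
    simp at this
    exact this
  -- step 2
  have hγW : γ ∈ W := by
    have : γ ∈ Wᗮᗮ := by
      rw [Submodule.mem_orthogonal]
      intro v hv
      rw [real_inner_comm]
      exact hort v hv
    rwa [Submodule.orthogonal_orthogonal] at this
  -- step 3
  let Φ : EuclideanSpace ℝ ι → EuclideanSpace ℝ ι := fun x => WithLp.toLp 2 (fun i => ((φ (x i) : ℚ) : ℝ))
  have hΦapply : ∀ x i, Φ x i = ((φ (x i) : ℚ) : ℝ) := fun x i => rfl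
  have hΦW : ∀ x ∈ W, ∀ r : ℝ, Φ (r • x) ∈ W := by
    intro x hx
    induction hx using Submodule.span_induction with
    | mem x hx =>
      intro r
      obtain ⟨a, ha, rfl⟩ := hx
      have : Φ (r • vec a) = ((φ r : ℚ) : ℝ) • vec a := by
        ext i
        rw [hΦapply, PiLp.smul_apply, PiLp.smul_apply, vec_apply, smul_eq_mul, smul_eq_mul,
          mul_comm r, phi_int_mul]
        push_cast
        ring
      rw [this]
      exact W.smul_mem _ (Submodule.subset_span ⟨a, ha, rfl⟩)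
    | zero =>
      intro r
      have : Φ (r • (0 : EuclideanSpace ℝ ι)) = 0 := by
        ext i
        rw [hΦapply]
        simp
      rw [this]
      exact W.zero_mem
    | add x y _ _ hx hy =>
      intro r
      have : Φ (r • (x + y)) = Φ (r • x) + Φ (r • y) := by
        ext i
        rw [PiLp.add_apply, hΦapply, hΦapply, hΦapply, smul_add, PiLp.add_apply, map_add]
        push_cast
        ring
      rw [this]
      exact W.add_mem (hx r) (hy r)
    | smul s x _ hx =>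
      intro r
      rw [smul_smul]
      exact hx (r * s)
  have hγ'W : Φ γ ∈ W := by simpa using hΦW γ hγW 1
  have hdiff : γ - Φ γ ∈ Wᗮ := by
    rw [hWmem]
    intro a ha
    have hint : ∃ b : ℤ, ∑ i, (a i : ℝ) * γ i = b := by
      rcases ha with ⟨b, _, hb⟩ | hE
      · exact ⟨b, hb⟩
      · exact ⟨0, by rw [h2 a hE]; simp⟩
    obtain ⟨b, hb⟩ := hint
    have hb' : ∑ i, (a i : ℝ) * Φ γ i = b := by
      have h3 : φ (∑ i, (a i : ℝ) * γ i) = ∑ i, (a i : ℚ) * φ (γ i) := by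
        rw [map_sum]
        exact Finset.sum_congr rfl fun i _ => phi_int_mul φ _ _
      have h4 : φ (∑ i, (a i : ℝ) * γ i) = (b : ℚ) := by
        rw [hb]
        have := hφ (b : ℚ)
        push_cast at this
        exact this
      rw [h4] at h3
      have h5 : (b : ℝ) = ((∑ i, (a i : ℚ) * φ (γ i) : ℚ) : ℝ) := by
        rw [← h3]
        push_cast
        rfl
      rw [h5]
      push_cast
      rfl
    have h6 : ∑ i, (a i : ℝ) * (γ - Φ γ) i = ∑ i, (a i : ℝ) * γ i - ∑ i, (a i : ℝ) * Φ γ i := by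
      rw [← Finset.sum_sub_distrib]
      refine Finset.sum_congr rfl fun i _ => ?_
      rw [PiLp.sub_apply]
      ring
    rw [h6, hb, hb', sub_self]
  have hzero : γ - Φ γ = 0 := by
    have h7 : γ - Φ γ ∈ W := W.sub_mem hγW hγ'W
    have h8 := (Submodule.mem_orthogonal _ _).1 hdiff _ h7
    exact inner_self_eq_zero.1 h8
  have hγΦ : ∀ i, γ i = ((φ (γ i) : ℚ) : ℝ) := by
    intro i
    have := congrArg (fun x : EuclideanSpace ℝ ι => x i) (sub_eq_zero.1 hzero)
    simpa [hΦapply] using this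
  -- step 4
  refine ⟨∏ i, (φ (γ i)).den, Finset.prod_pos fun i _ => (φ (γ i)).den_pos, fun i => ?_⟩
  refine ⟨(∏ j ∈ Finset.univ.erase i, ((φ (γ j)).den : ℤ)) * (φ (γ i)).num, ?_⟩
  have hprod : ((∏ j, (φ (γ j)).den : ℕ) : ℝ) =
      (∏ j ∈ Finset.univ.erase i, ((φ (γ j)).den : ℝ)) * ((φ (γ i)).den : ℝ) := by
    push_cast
    rw [Finset.prod_erase_mul _ _ (Finset.mem_univ i)]
  rw [hprod, mul_assoc]
  have hden : ((φ (γ i)).den : ℝ) * γ i = ((φ (γ i)).num : ℝ) := by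
    rw [hγΦ i, hφ]
    have h9 : ((φ (γ i)).den : ℚ) * (φ (γ i)) = ((φ (γ i)).num : ℚ) := by
      rw [mul_comm]
      exact Rat.mul_den_eq_num _
    exact_mod_cast h9
  rw [hden]
  push_cast
  rfl

end Pool.Agent.Helper11.Dr
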