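import Mathlib
import Pool.Agent.Helper11.Can.Basic
import Pool.Agent.Helper42.CAN.L5
import Pool.Agent.Helper11.Dr.R1

/-!
# Optimal weights are rational
-/

universe u v t

open Finset Matrix

namespace Pool.Agent.Helper11.Dr

open Pool.Agent.Helper10.GIT Pool.Agent.Helper11.GIT Pool.Agent.Helper11.Can

variable {P : ℕ} {d : Fin P → ℕ}

lemma wgt_eq (γ : WSpace d) (w : Words d) : wgt γ w = ∑ l, (cnt w l : ℝ) * γ l := by
  classical
  unfold wgt cnt
  rw [← Finset.sum_fiberwise_of_maps_to (s := univ) (t := univ) (g := fun i => lt w.2 i)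
    (fun _ _ => mem_univ _)]
  refine sum_congr rfl fun l _ => ?_
  rw [sum_congr rfl (g := fun _ => γ l) (fun i hi => by rw [(mem_filter.mp hi).2]), sum_const,
    nsmul_eq_mul]

/-- optimal weights are rational -/
theorem exists_denominator {κ : Type*} [Field κ] {A N : Family d κ} (hNA : ∀ χ, N χ ⊆ A χ)
    {n : ℕ} (hn : ∀ χ, n < χ.1 → A χ = ∅) {h : Mats d κ} {γ : WSpace d}
    (ho : Optimal A N h γ) : ∃ D : ℕ, 0 < D ∧ ∀ l, ∃ m : ℤ, (D : ℝ) * γ l = m := by
  classical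
  have hfin : (suppW h A).Finite := (finite_words n).subset (suppW_le hn h)
  have hfinN : (suppW h N).Finite := hfin.subset (suppW_mono hNA h)
  let f : Words d → (Let d → ℤ) := fun w l => (cnt w l : ℤ)
  let C : Set ((Let d → ℤ) × ℤ) := (fun w => (f w, 0)) '' suppW h A ∪
    (fun w => (f w, 1)) '' suppW h N
  let E : Set (Let d → ℤ) := Set.range fun c : Fin P => fun l : Let d => if l.1 = c then 1 else 0
  have hf : ∀ (γ' : WSpace d) w, ∑ l, ((f w l : ℤ) : ℝ) * γ' l = wgt γ' w := by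
    intro γ' w
    rw [wgt_eq]
    refine sum_congr rfl fun l _ => ?_
    simp [f]
  have hE : ∀ (γ' : WSpace d) (c : Fin P),
      ∑ l : Let d, (((if l.1 = c then 1 else 0 : ℤ)) : ℝ) * γ' l = ∑ a, γ' ⟨c, a⟩ := by
    intro γ' c
    rw [Fintype.sum_sigma, Finset.sum_eq_single c]
    · exact sum_congr rfl fun a _ => by simp
    · intro c' _ hne
      refine sum_eq_zero fun a _ => ?_
      simp [hne]
    · exact fun h => absurd (mem_univ c) h
  refine rational_of_minimal C ((hfin.image _).union (hfinN.image _)) E γ ?_ ?_ ?_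
  · rintro p (⟨w, hw, rfl⟩ | ⟨w, hw, rfl⟩)
    · simp only [Int.cast_zero]
      rw [hf]
      exact ho.1.nonneg w hw
    · simp only [Int.cast_one]
      rw [hf]
      exact ho.1.one_le w hw
  · rintro _ ⟨c, rfl⟩
    simp only
    rw [hE]
    exact ho.1.sum c
  · intro γ' h1 h2
    refine ho.2 h γ' ⟨ho.1.det, fun c => ?_, fun w hw => ?_, fun w hw => ?_⟩
    · rw [← hE]
      exact h2 _ ⟨c, rfl⟩
    · rw [← hf]
      have := h1 _ (.inl ⟨w, hw, rfl⟩)
      simpa using this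
    · rw [← hf]
      have := h1 _ (.inr ⟨w, hw, rfl⟩)
      simpa using this

/-- the flags of integral weights have integral jumps -/
lemma flag_ceil {κ : Type*} [Field κ] {h : Mats d κ} {γ : WSpace d} {D : ℕ} (hD : 0 < D)
    (hγ : ∀ l, ∃ m : ℤ, (D : ℝ) * γ l = m) (c : Fin P) (a : ℝ) :
    flag h γ c a = flag h γ c (⌈(D : ℝ) * a⌉ / D) := by
  have hD' : (0 : ℝ) < D := by exact_mod_cast hD
  have key : ∀ b, γ ⟨c, b⟩ < a ↔ γ ⟨c, b⟩ < (⌈(D : ℝ) * a⌉ : ℝ) / D := by
    intro b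
    obtain ⟨m, hm⟩ := hγ ⟨c, b⟩
    rw [lt_div_iff₀ hD', mul_comm (γ ⟨c, b⟩), hm, Int.cast_lt, Int.lt_ceil, ← hm]
    exact (mul_lt_mul_iff_right₀ hD').symm
  ext x
  rw [mem_flag, mem_flag]
  simp only [key]

end Pool.Agent.Helper11.Dr
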