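import Mathlib
import Pool.Agent.Helper11.Can.Min
import Pool.Agent.Helper7.CAN.L4
import Pool.Agent.Helper85.CAN.L10
import Pool.Agent.Helper82.CAN.L12
import Pool.Agent.Helper54.CAN.L13
import Pool.Agent.Helper74.CAN.L20

/-!
# Optimal weights are orthogonal to the weights which vanish on the tensors
-/

universe u v t

open Finset Matrix

namespace Pool.Agent.Helper11.Dr

open Pool.Agent.Helper10.GIT Pool.Agent.Helper11.GIT Pool.Agent.Helper11.Can
open Pool.Agent.Helper11.Obs (filNorm)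

variable {P : ℕ} {d : Fin P → ℕ}

section

variable {K : Type v} [Field K] {Ω : Type t} [Field Ω] [Algebra K Ω]

/-- the flags over larger fields -/
lemma flag_map_eq (j : AlgebraicClosure K →ₐ[K] Ω) {h : Mats d (AlgebraicClosure K)}
    (hh : ∀ c, (h c).det ≠ 0) {γ : WSpace d} (F : ∀ c, ℝ → Submodule K (Fin (d c) → K))
    (hF : ∀ c a, Submodule.span (AlgebraicClosure K)
      (embV (AlgebraicClosure K) '' (F c a : Set (Fin (d c) → K))) = flag h γ c a)
    (c : Fin P) (a : ℝ) :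
    flag (fun c => (h c).map (j : AlgebraicClosure K →+* Ω)) γ c a =
      Submodule.span Ω (embV Ω '' (F c a : Set (Fin (d c) → K))) := by
  let _ : Algebra (AlgebraicClosure K) Ω := (j : AlgebraicClosure K →+* Ω).toAlgebra
  have h1 := span_flag Ω hh γ c a
  have hcomp : ∀ (x : Fin (d c) → K), embV Ω (embV (AlgebraicClosure K) x) = embV Ω x := by
    intro x
    funext i
    exact j.commutes (x i)
  refine Eq.trans h1.symm (le_antisymm ?_ ?_)
  · rw [Submodule.span_le]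
    rintro _ ⟨y, hy, rfl⟩
    rw [← hF c a] at hy
    refine Submodule.span_induction (p := fun y _ => embV Ω y ∈
      Submodule.span Ω (embV Ω '' (F c a : Set (Fin (d c) → K)))) ?_ ?_ ?_ ?_ hy
    · rintro _ ⟨x, hx, rfl⟩
      rw [hcomp]
      exact Submodule.subset_span ⟨x, hx, rfl⟩
    · rw [embV_zero]
      exact Submodule.zero_mem _
    · intro x y _ _ hx hy
      rw [embV_add]
      exact Submodule.add_mem _ hx hy
    · intro r x _ hx
      rw [embV_smul]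
      exact Submodule.smul_mem _ _ hx
  · rw [Submodule.span_le]
    rintro _ ⟨x, hx, rfl⟩
    refine Submodule.subset_span ⟨embV (AlgebraicClosure K) x, ?_, hcomp x⟩
    rw [← hF c a]
    exact Submodule.subset_span ⟨x, hx, rfl⟩

/-- weights with the optimal flags are adapted -/
theorem adapted_of_flag_eq {A N : Family d Ω} {h₁ h' : Mats d Ω} {γ γ' : WSpace d}
    (ha : Adapted A N h₁ γ) (hh' : ∀ c, (h' c).det ≠ 0) (G B : Mats d Ω)
    (hGB : ∀ c, G c * B c = 1) (hGA : ∀ c, mten c (G c) ∈ A (two c))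
    (hflag : ∀ c a, flag h' γ' c a = flag h₁ γ c a) : Adapted A N h' γ' := by
  have hdetG : ∀ c, (G c).det ≠ 0 := by
    intro c h0
    have h1 := congrArg Matrix.det (hGB c)
    rw [Matrix.det_mul, h0, zero_mul, Matrix.det_one] at h1
    exact zero_ne_one h1
  have hgw := fun c => gram_weights ha c (G c) (hdetG c) (hGA c)
  refine adapted_of_dual hh' γ' G B hGB (fun c a x => ?_) (fun χ z a x hx hz => ?_)
  · simp only [hflag]
    exact flag_dual c (ha.det c) (G c) (B c) (hGB c) (hgw c).1 (hgw c).2 a x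
  · exact flag_vanish' ha G B hGB (fun c => (hgw c).2) z a x
      (fun i => by rw [← hflag]; exact hx i) hz

lemma norm_eq_of_flag_eq {h₁ h' : Mats d Ω} {γ γ' : WSpace d} (hh : ∀ c, (h₁ c).det ≠ 0)
    (hh' : ∀ c, (h' c).det ≠ 0) (hflag : ∀ c a, flag h' γ' c a = flag h₁ γ c a) :
    ‖γ'‖ = ‖γ‖ := by
  have h1 : ‖γ'‖ ^ 2 = ‖γ‖ ^ 2 := by
    rw [EuclideanSpace.real_norm_sq_eq, EuclideanSpace.real_norm_sq_eq, Fintype.sum_sigma,
      Fintype.sum_sigma]
    refine sum_congr rfl fun c _ => ?_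
    rw [← filNorm_eq (F := fun a => flag h₁ γ c a) (h := h₁ c) (γ := fun b => γ ⟨c, b⟩)
      (hh c) (fun a x => Iff.rfl), ← filNorm_eq (F := fun a => flag h₁ γ c a) (h := h' c)
      (γ := fun b => γ' ⟨c, b⟩) (hh' c) (fun a x => by rw [← hflag]; exact Iff.rfl)]
  exact (pow_left_inj₀ (norm_nonneg _) (norm_nonneg _) two_ne_zero).mp h1

lemma wgt_add_smul (γ μ : WSpace d) (ε : ℝ) (w : Words d) :
    wgt (γ + ε • μ) w = wgt γ w + ε * wgt μ w := by
  unfold wgt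
  rw [mul_sum, ← sum_add_distrib]
  rfl

/-- adding weights which vanish on the tensors -/
lemma Adapted.add {A N : Family d Ω} (hNA : ∀ χ, N χ ⊆ A χ) {h' : Mats d Ω} {γ' μ : WSpace d}
    (ha : Adapted A N h' γ') (hμ : ∀ c, ∑ b, μ ⟨c, b⟩ = 0)
    (hμA : ∀ w ∈ suppW h' A, wgt μ w = 0) (ε : ℝ) : Adapted A N h' (γ' + ε • μ) := by
  refine ⟨ha.det, fun c => ?_, fun w hw => ?_, fun w hw => ?_⟩
  · have h1 : ∀ b, (γ' + ε • μ) ⟨c, b⟩ = γ' ⟨c, b⟩ + ε * μ ⟨c, b⟩ := fun b => rfl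
    simp only [h1]
    rw [sum_add_distrib, ← mul_sum, hμ, ha.sum, mul_zero, add_zero]
  · rw [wgt_add_smul, hμA w hw, mul_zero, add_zero]
    exact ha.nonneg w hw
  · rw [wgt_add_smul, hμA w (suppW_mono hNA h' hw), mul_zero, add_zero]
    exact ha.one_le w hw

/-- if all `γ' + ε μ` are at least as long as `γ'`, then `γ'` is orthogonal to `μ` -/
lemma inner_zero_of_norm_le {γ' μ : WSpace d} (h : ∀ ε : ℝ, ‖γ'‖ ≤ ‖γ' + ε • μ‖) :
    ∑ l, γ' l * μ l = 0 := by
  set s := ∑ l, γ' l * μ l with hs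
  set q := ∑ l, μ l ^ 2 with hq
  have hq0 : 0 ≤ q := sum_nonneg fun l _ => sq_nonneg _
  have key : ∀ ε : ℝ, 0 ≤ 2 * ε * s + ε ^ 2 * q := by
    intro ε
    have h1 := pow_le_pow_left₀ (norm_nonneg _) (h ε) 2
    rw [EuclideanSpace.real_norm_sq_eq, EuclideanSpace.real_norm_sq_eq] at h1
    have h2 : ∑ l, (γ' + ε • μ) l ^ 2 = ∑ l, γ' l ^ 2 + (2 * ε * s + ε ^ 2 * q) := by
      rw [hs, hq, mul_sum, mul_sum, ← sum_add_distrib, ← sum_add_distrib]
      refine sum_congr rfl fun l _ => ?_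
      have h3 : (γ' + ε • μ) l = γ' l + ε * μ l := rfl
      rw [h3]
      ring
    rw [h2] at h1
    linarith
  by_contra hne
  rcases hq0.eq_or_lt with hq' | hq'
  · have h1 := key (-s)
    rw [← hq', mul_zero, add_zero] at h1
    have : 0 < s ^ 2 := by positivity
    nlinarith
  · have h1 := key (-s / q)
    have h2 : 2 * (-s / q) * s + (-s / q) ^ 2 * q = -(s ^ 2 / q) := by
      field_simp
      ring
    rw [h2] at h1
    have : 0 < s ^ 2 / q := by positivity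
    linarith

/-- **Orthogonality.** -/
theorem orthogonal {A N : Family d Ω} (hNA : ∀ χ, N χ ⊆ A χ) {h₁ h' : Mats d Ω}
    {γ γ' μ : WSpace d} (ho : Optimal A N h₁ γ) (hh' : ∀ c, (h' c).det ≠ 0) (G B : Mats d Ω)
    (hGB : ∀ c, G c * B c = 1) (hGA : ∀ c, mten c (G c) ∈ A (two c))
    (hflag : ∀ c a, flag h' γ' c a = flag h₁ γ c a) (hμ : ∀ c, ∑ b, μ ⟨c, b⟩ = 0)
    (hμA : ∀ w ∈ suppW h' A, wgt μ w = 0) : ∑ l, γ' l * μ l = 0 := by
  have ha := adapted_of_flag_eq ho.1 hh' G B hGB hGA hflag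
  refine inner_zero_of_norm_le fun ε => ?_
  rw [norm_eq_of_flag_eq ho.1.det hh' hflag]
  exact ho.2 _ _ (Adapted.add hNA ha hμ hμA ε)

/-- the duality of the letters -/
theorem exists_dual_perm {A N : Family d Ω} {h' : Mats d Ω} {γ' μ : WSpace d}
    (ha : Adapted A N h' γ') (G B : Mats d Ω)
    (hGB : ∀ c, G c * B c = 1) (hGA : ∀ c, mten c (G c) ∈ A (two c))
    (hμA : ∀ w ∈ suppW h' A, wgt μ w = 0) (c : Fin P) :
    ∃ π : Equiv.Perm (Fin (d c)), ∀ b, γ' ⟨c, π b⟩ = - γ' ⟨c, b⟩ ∧ μ ⟨c, π b⟩ = - μ ⟨c, b⟩ := by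
  have hdetG : (G c).det ≠ 0 := by
    intro h0
    have h1 := congrArg Matrix.det (hGB c)
    rw [Matrix.det_mul, h0, zero_mul, Matrix.det_one] at h1
    exact zero_ne_one h1
  obtain ⟨M, hM⟩ : ∃ M, M = h' c * G c * (h' c)ᵀ := ⟨_, rfl⟩
  have hdet : M.det ≠ 0 := by
    rw [hM, Matrix.det_mul, Matrix.det_mul, Matrix.det_transpose]
    exact mul_ne_zero (mul_ne_zero (ha.det c) hdetG) (ha.det c)
  have hw : ∀ (ν : WSpace d) a b, wgt ν ⟨two c, L12.wd d c a b⟩ = ν ⟨c, a⟩ + ν ⟨c, b⟩ := by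
    intro ν a b
    unfold wgt
    change ∑ i : Fin 2, ν (lt (L12.wd d c a b) i) = _
    rw [Fin.sum_univ_two]
    rfl
  have hsupp : ∀ a b, M a b ≠ 0 → (⟨two c, L12.wd d c a b⟩ : Words d) ∈ suppW h' A := by
    intro a b hab
    rw [hM, ← L12.act_two] at hab
    exact ⟨mten c (G c), hGA c, hab⟩
  obtain ⟨π, hπ⟩ := exists_perm hdet
  refine ⟨π, fun b => ⟨?_, ?_⟩⟩
  · have h5 : ∀ b ∈ (Finset.univ : Finset (Fin (d c))), 0 ≤ γ' ⟨c, π b⟩ + γ' ⟨c, b⟩ := by
      intro b _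
      rw [← hw]
      exact ha.nonneg _ (hsupp _ _ (hπ b))
    have h6 : ∑ b, (γ' ⟨c, π b⟩ + γ' ⟨c, b⟩) = 0 := by
      rw [Finset.sum_add_distrib, ha.sum c,
        Equiv.sum_comp π (fun a => γ' ⟨c, a⟩), ha.sum c, add_zero]
    have h7 := (Finset.sum_eq_zero_iff_of_nonneg h5).mp h6 b (Finset.mem_univ b)
    linarith
  · have h8 := hμA _ (hsupp _ _ (hπ b))
    rw [hw] at h8
    linarith

end

end Pool.Agent.Helper11.Dr
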