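import Mathlib
import Pool.Agent.Helper63.CAN.L18

/-!
# DR-2: a basis adapted to a filtration and to the generalised eigenspaces of an operator

HINT. Copy the proof of `L18.exists_family` and of `exists_adapted_basis` in
`Pool/Agent/Helper63/CAN/L18.lean`. In the induction step of `exists_family`, `L18.exists_max` gives a
vector `x ∉ U` which is as deep as possible: `∀ y ∉ U, ∀ a, y ∈ F a → x ∈ F a`. Let `a` run through the
levels with `x ∈ F a` (by `hcont` there is a largest such `a`, or argue with all of them); `F a` is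
stable under `T`, so `x` is a sum of generalised eigenvectors which are in `F a`
(`Submodule.eq_iSup_inf_genEigenspace` or `Submodule.inf_iSup_genEigenspace`,
`Module.End.iSup_maxGenEigenspace_eq_top`). One of them, `x'`, is not in `U`, and it is as deep as `x`
(take for `a` the largest level containing `x`, `sSup`, `hcont`, `hbot`; `x ∉ U` implies `x ≠ 0`).
Replace `x` by `x'`.
-/

universe u v

namespace Pool.Agent.Helper11.Dr

open Module

theorem r2_mem_iff_le {κ : Type u} [Field κ] {V : Type v} [AddCommGroup V] [Module κ V]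
    (F : ℝ → Submodule κ V) (hanti : Antitone F) (hbot : ∃ M, F M = ⊥) (htop : ∃ M, F M = ⊤)
    (hcont : ∀ a x, (∀ a' < a, x ∈ F a') → x ∈ F a) {x : V} (hx : x ≠ 0) :
    ∃ g : ℝ, ∀ a, x ∈ F a ↔ a ≤ g := by
  obtain ⟨M, hM⟩ := hbot
  obtain ⟨L, hL⟩ := htop
  have hne : ({a | x ∈ F a} : Set ℝ).Nonempty := ⟨L, by
    change x ∈ F L
    rw [hL]; trivial⟩
  have hbdd : BddAbove {a | x ∈ F a} := by
    refine ⟨M, fun a ha => ?_⟩
    by_contra hlt
    have h1 : x ∈ F M := hanti (not_le.1 hlt).le ha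
    rw [hM, Submodule.mem_bot] at h1
    exact hx h1
  refine ⟨sSup {a | x ∈ F a}, fun a => ⟨fun h => le_csSup hbdd h, fun h => ?_⟩⟩
  refine hanti h (hcont _ _ fun a' ha' => ?_)
  obtain ⟨a'', h1, h2⟩ := exists_lt_of_lt_csSup hne ha'
  exact hanti h2.le h1

/-- outside a proper subspace there is a generalised eigenvector which is as deep as possible in the
filtration -/
theorem r2_exists_max {κ : Type u} [Field κ] [IsAlgClosed κ] {V : Type v} [AddCommGroup V]
    [Module κ V] [FiniteDimensional κ V] (T : Module.End κ V) (F : ℝ → Submodule κ V)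
    (hanti : Antitone F) (hbot : ∃ M, F M = ⊥) (htop : ∃ M, F M = ⊤)
    (hcont : ∀ a x, (∀ a' < a, x ∈ F a') → x ∈ F a) (hT : ∀ a, ∀ x ∈ F a, T x ∈ F a)
    (U : Submodule κ V) (hU : U ≠ ⊤) :
    ∃ (x : V) (θ : κ), x ∉ U ∧ x ∈ T.maxGenEigenspace θ ∧ ∀ y ∉ U, ∀ a, y ∈ F a → x ∈ F a := by
  obtain ⟨x, hxU, hx⟩ := Pool.Agent.Helper11.Can.L18.exists_max F hanti hbot htop hcont U hU
  have hx0 : x ≠ 0 := by
    rintro rfl
    exact hxU (Submodule.zero_mem U)
  obtain ⟨g, hg⟩ := r2_mem_iff_le F hanti hbot htop hcont hx0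
  have h1 : F g = ⨆ μ, F g ⊓ T.maxGenEigenspace μ :=
    Submodule.eq_iSup_inf_genEigenspace (p := F g) (f := T) ⊤ (hT g)
      (Module.End.iSup_maxGenEigenspace_eq_top T)
  have h2 : ∃ θ, ¬ F g ⊓ T.maxGenEigenspace θ ≤ U := by
    by_contra hcon
    push Not at hcon
    have h3 : F g ≤ U := by
      rw [h1]
      exact iSup_le hcon
    exact hxU (h3 ((hg g).2 le_rfl))
  obtain ⟨θ, hθ⟩ := h2
  obtain ⟨x', hx', hx'U⟩ := Set.not_subset.1 hθ
  refine ⟨x', θ, hx'U, hx'.2, fun y hy a hya => ?_⟩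
  exact hanti ((hg a).1 (hx y hy a hya)) hx'.1

theorem r2_exists_family {κ : Type u} [Field κ] [IsAlgClosed κ] {V : Type v} [AddCommGroup V]
    [Module κ V] [FiniteDimensional κ V] (T : Module.End κ V) (F : ℝ → Submodule κ V)
    (hanti : Antitone F) (hbot : ∃ M, F M = ⊥) (htop : ∃ M, F M = ⊤)
    (hcont : ∀ a x, (∀ a' < a, x ∈ F a') → x ∈ F a) (hT : ∀ a, ∀ x ∈ F a, T x ∈ F a) (k : ℕ)
    (hk : k ≤ finrank κ V) :
    ∃ (v : Fin k → V) (θ : Fin k → κ), LinearIndependent κ v ∧
      (∀ j, v j ∈ T.maxGenEigenspace (θ j)) ∧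
      ∀ a, ∀ x ∈ Submodule.span κ (Set.range v), x ∈ F a →
        x ∈ Submodule.span κ (v '' {j | v j ∈ F a}) := by
  induction k with
  | zero =>
    refine ⟨Fin.elim0, Fin.elim0, linearIndependent_empty_type, fun j => j.elim0, ?_⟩
    intro a x hx _
    have : Set.range (Fin.elim0 : Fin 0 → V) = ∅ := Set.range_eq_empty _
    rw [this, Submodule.span_empty] at hx
    rw [(Submodule.mem_bot κ).1 hx]
    exact Submodule.zero_mem _
  | succ k ih =>
    obtain ⟨v, θ, hv, hvθ, hvF⟩ := ih (Nat.le_of_succ_le hk)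
    have hU : Submodule.span κ (Set.range v) ≠ ⊤ := by
      intro h
      have h1 : finrank κ (Submodule.span κ (Set.range v)) = k := by
        rw [finrank_span_eq_card hv, Fintype.card_fin]
      rw [h, finrank_top] at h1
      omega
    obtain ⟨x, θx, hxU, hxθ, hx⟩ := r2_exists_max T F hanti hbot htop hcont hT _ hU
    refine ⟨Fin.cons x v, Fin.cons θx θ, linearIndependent_finCons.2 ⟨hv, hxU⟩, ?_, ?_⟩
    · intro j
      refine Fin.cases ?_ (fun i => ?_) j
      · simpa using hxθ
      · simpa using hvθ i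
    intro a y hy hyF
    rw [Fin.range_cons] at hy
    obtain ⟨c, z, hz, rfl⟩ := Submodule.mem_span_insert.1 hy
    have himg : v '' {j | v j ∈ F a} ⊆
        (Fin.cons x v : Fin (k + 1) → V) '' {j | (Fin.cons x v : Fin (k + 1) → V) j ∈ F a} := by
      rintro _ ⟨j, hj, rfl⟩
      exact ⟨j.succ, by simpa using hj, by simp⟩
    by_cases hc : c = 0
    · subst hc
      rw [zero_smul, zero_add] at hyF ⊢
      exact Submodule.span_mono himg (hvF a z hz hyF)
    · have hyU : c • x + z ∉ Submodule.span κ (Set.range v) := by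
        intro h
        have h2 : c • x ∈ Submodule.span κ (Set.range v) := by
          have := Submodule.sub_mem _ h hz
          simpa using this
        exact hxU ((Submodule.smul_mem_iff _ hc).1 h2)
      have hxa : x ∈ F a := hx _ hyU a hyF
      have hza : z ∈ F a := by
        have := Submodule.sub_mem _ hyF (Submodule.smul_mem _ c hxa)
        simpa using this
      refine Submodule.add_mem _ (Submodule.smul_mem _ _ (Submodule.subset_span ?_))
        (Submodule.span_mono himg (hvF a z hz hza))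
      exact ⟨0, by simpa using hxa, by simp⟩

/-- DR-2 -/
theorem exists_eigen_family {κ : Type u} [Field κ] [IsAlgClosed κ] {V : Type v} [AddCommGroup V]
    [Module κ V] [FiniteDimensional κ V] (T : Module.End κ V) (F : ℝ → Submodule κ V)
    (hanti : Antitone F) (hbot : ∃ M, F M = ⊥) (htop : ∃ M, F M = ⊤)
    (hcont : ∀ a x, (∀ a' < a, x ∈ F a') → x ∈ F a) (hT : ∀ a, ∀ x ∈ F a, T x ∈ F a) {m : ℕ}
    (hm : finrank κ V = m) :
    ∃ (b : Basis (Fin m) κ V) (γ : Fin m → ℝ) (θ : Fin m → κ),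
      (∀ j, b j ∈ T.maxGenEigenspace (θ j)) ∧ (∀ j a, b j ∈ F a ↔ a ≤ γ j) ∧
      ∀ a, F a = Submodule.span κ (b '' {j | a ≤ γ j}) := by
  obtain ⟨v, θ, hv, hvθ, hvF⟩ := r2_exists_family T F hanti hbot htop hcont hT m hm.ge
  have htopv : Submodule.span κ (Set.range v) = ⊤ := by
    apply Submodule.eq_top_of_finrank_eq
    rw [finrank_span_eq_card hv, hm, Fintype.card_fin]
  let b : Basis (Fin m) κ V := Basis.mk hv htopv.ge
  have hb : ∀ j, b j = v j := fun j => by simp [b]
  have hbv : (b : Fin m → V) = v := funext hb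
  have hdepth : ∀ j, ∃ g : ℝ, ∀ a, v j ∈ F a ↔ a ≤ g := fun j =>
    r2_mem_iff_le F hanti hbot htop hcont (hv.ne_zero j)
  choose γ hγ using hdepth
  refine ⟨b, γ, θ, fun j => ?_, fun j a => ?_, fun a => ?_⟩
  · rw [hb]; exact hvθ j
  · rw [hb]; exact hγ j a
  · rw [hbv]
    have hset : {j | a ≤ γ j} = {j | v j ∈ F a} := by
      ext j
      exact (hγ j a).symm
    rw [hset]
    apply le_antisymm
    · intro x hx
      refine hvF a x ?_ hx
      rw [htopv]; trivial
    · refine Submodule.span_le.2 ?_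
      rintro _ ⟨j, hj, rfl⟩
      exact hj

end Pool.Agent.Helper11.Dr
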