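import Mathlib

/-!
# DR-3: the determinant of an operator with a basis of generalised eigenvectors

HINT. For instance: let `I θ' = {i | θ i = θ'}`. `M` is the sum of the `T.maxGenEigenspace (θ i)`, the
restriction of `T` to `T.maxGenEigenspace μ` is `μ` + nilpotent. Or: base change is not needed; show
`T.charpoly = ∏ i, (X - C (θ i))` by comparing root multiplicities
(`LinearMap.finrank_maxGenEigenspace_eq : finrank (φ.maxGenEigenspace μ) = φ.charpoly.rootMultiplicity μ`,
`Module.End.independent_maxGenEigenspace`): the number of `i` with `θ i = μ` is at most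
`finrank (T.maxGenEigenspace μ) = rootMultiplicity μ`, so `∏ i, (X - C (θ i))` divides the monic
polynomial `T.charpoly` of the same degree (`Polynomial.Multiset.prod_X_sub_C_dvd_iff_le_roots`). Then
compare the constant terms (`LinearMap.det_eq_sign_charpoly_coeff`).
-/

namespace Pool.Agent.Helper11.Dr

/-- DR-3 -/
theorem det_eq_prod_of_eigen {κ : Type*} [Field κ] {M : Type*} [AddCommGroup M] [Module κ M]
    {ι : Type*} [Fintype ι] (b : Module.Basis ι κ M) (T : Module.End κ M) (θ : ι → κ)
    (hb : ∀ i, b i ∈ T.maxGenEigenspace (θ i)) : LinearMap.det T = ∏ i, θ i := by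
  classical
  have : Module.Finite κ M := Module.Finite.of_basis b
  have : Module.Free κ M := Module.Free.of_basis b
  have hfr : Module.finrank κ M = Fintype.card ι := Module.finrank_eq_card_basis b
  have hmon := T.charpoly_monic
  have hdeg : T.charpoly.natDegree = Fintype.card ι := by
    rw [LinearMap.charpoly_natDegree, hfr]
  have hle : Finset.univ.val.map θ ≤ T.charpoly.roots := by
    rw [Multiset.le_iff_count]
    intro μ
    rw [Polynomial.count_roots, ← LinearMap.finrank_maxGenEigenspace_eq]
    have h1 : Multiset.count μ (Finset.univ.val.map θ) = Fintype.card {i // θ i = μ} := by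
      rw [Multiset.count_map, Fintype.card_subtype, Finset.card_def, Finset.filter_val]
      congr 1
      apply Multiset.filter_congr
      intro i _
      exact eq_comm
    rw [h1]
    let c : {i // θ i = μ} → T.maxGenEigenspace μ := fun i => ⟨b i.1, by have := hb i.1; rwa [i.2] at this⟩
    have hc : LinearIndependent κ c := by
      apply LinearIndependent.of_comp (T.maxGenEigenspace μ).subtype
      exact b.linearIndependent.comp (fun i : {i // θ i = μ} => i.1) Subtype.val_injective
    exact hc.fintype_card_le_finrank
  have hdvd := (Multiset.prod_X_sub_C_dvd_iff_le_roots hmon.ne_zero _).2 hle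
  rw [Multiset.map_map] at hdvd
  have hprod : (Multiset.map (fun a => Polynomial.X - Polynomial.C a)
      (Multiset.map θ Finset.univ.val)).prod = ∏ i, (Polynomial.X - Polynomial.C (θ i)) := by
    rw [Multiset.map_map]
    rfl
  have hdvd' : (∏ i, (Polynomial.X - Polynomial.C (θ i))) ∣ T.charpoly := hdvd
  have hm2 : (∏ i, (Polynomial.X - Polynomial.C (θ i))).Monic :=
    Polynomial.monic_prod_of_monic _ _ fun i _ => Polynomial.monic_X_sub_C _
  have heq : T.charpoly = ∏ i, (Polynomial.X - Polynomial.C (θ i)) := by
    refine Polynomial.eq_of_monic_of_dvd_of_natDegree_le hm2 hmon hdvd' ?_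
    rw [hdeg, Polynomial.natDegree_finsetProd_X_sub_C_eq_card]
    exact le_rfl
  rw [LinearMap.det_eq_sign_charpoly_coeff, heq, Polynomial.coeff_zero_eq_eval_zero,
    Polynomial.eval_prod, hfr]
  simp [Finset.prod_neg, ← mul_assoc, ← mul_pow]

end Pool.Agent.Helper11.Dr
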