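import Mathlib

/-!
# DR-5: Abel summation for a self-dual filtration with integral jumps

HINT. For an integer `n` with `|n| ≤ M`: `n = #{i ∈ Icc 1 M | i ≤ n} - #{i ∈ Icc 1 M | n ≤ -i}`.
So `∑ b, n b * x b = ∑ i ∈ Icc 1 M, (∑_{b, i ≤ n b} x b - ∑_{b, n b ≤ -i} x b)`, and by `hdual` each
term is `-2 * ∑_{b, n b ≤ -i} x b`.
-/

open Finset

namespace Pool.Agent.Helper11.Dr

theorem r5_nat (k M : ℕ) (h : k ≤ M) :
    ∑ i ∈ Icc 1 M, (if i ≤ k then (1 : ℚ) else 0) = k := by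
  rw [← sum_filter]
  have : (Icc 1 M).filter (fun i => i ≤ k) = Icc 1 k := by
    ext i
    simp only [mem_filter, mem_Icc]
    omega
  rw [this]
  simp

theorem r5_int (n : ℤ) (M : ℕ) (h : |n| ≤ M) :
    (n : ℚ) = ∑ i ∈ Icc 1 M,
      ((if (i : ℤ) ≤ n then (1 : ℚ) else 0) - (if n ≤ -(i : ℤ) then (1 : ℚ) else 0)) := by
  rw [abs_le] at h
  rw [sum_sub_distrib]
  rcases le_total 0 n with hn | hn
  · obtain ⟨k, rfl⟩ := Int.eq_ofNat_of_zero_le hn
    have h1 : ∑ i ∈ Icc 1 M, (if (i : ℤ) ≤ (k : ℤ) then (1 : ℚ) else 0) = k := by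
      rw [← r5_nat k M (by omega)]
      apply sum_congr rfl
      intro i _
      simp
    have h2 : ∑ i ∈ Icc 1 M, (if (k : ℤ) ≤ -(i : ℤ) then (1 : ℚ) else 0) = 0 := by
      apply sum_eq_zero
      intro i hi
      rw [mem_Icc] at hi
      rw [if_neg (by omega)]
    rw [h1, h2]
    simp
  · obtain ⟨k, hk⟩ := Int.eq_ofNat_of_zero_le (neg_nonneg.mpr hn)
    have hn' : n = -(k : ℤ) := by omega
    subst hn'
    have h1 : ∑ i ∈ Icc 1 M, (if (i : ℤ) ≤ -(k : ℤ) then (1 : ℚ) else 0) = 0 := by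
      apply sum_eq_zero
      intro i hi
      rw [mem_Icc] at hi
      rw [if_neg (by omega)]
    have h2 : ∑ i ∈ Icc 1 M, (if -(k : ℤ) ≤ -(i : ℤ) then (1 : ℚ) else 0) = k := by
      rw [← r5_nat k M (by omega)]
      apply sum_congr rfl
      intro i _
      simp
    rw [h1, h2]
    simp

/-- DR-5 -/
theorem sum_mul_eq {β : Type*} [Fintype β] (n : β → ℤ) (x : β → ℚ) (M : ℕ)
    (hM : ∀ b, |n b| ≤ M)
    (hdual : ∀ i : ℕ, 0 < i → ∑ b with (i : ℤ) ≤ n b, x b = - ∑ b with n b ≤ -(i : ℤ), x b) :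
    ∑ b, (n b : ℚ) * x b = - 2 * ∑ i ∈ Icc 1 M, ∑ b with n b ≤ -(i : ℤ), x b := by
  have h1 : ∀ b, (n b : ℚ) * x b = ∑ i ∈ Icc 1 M,
      ((if (i : ℤ) ≤ n b then x b else 0) - (if n b ≤ -(i : ℤ) then x b else 0)) := by
    intro b
    conv_lhs => rw [r5_int (n b) M (hM b), sum_mul]
    apply sum_congr rfl
    intro i _
    rw [sub_mul, ite_mul, ite_mul, one_mul, zero_mul]
  rw [sum_congr rfl (fun b _ => h1 b), sum_comm, mul_sum]
  apply sum_congr rfl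
  intro i hi
  rw [mem_Icc] at hi
  rw [sum_sub_distrib, ← sum_filter, ← sum_filter, hdual i (by omega)]
  ring

end Pool.Agent.Helper11.Dr
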