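import Mathlib

/-!
# The dual basis of a basis of generalised eigenvectors
-/

open Module Finset Matrix

namespace Pool.Agent.Helper11.Dr

section

variable {κ : Type*} [Field κ] {M : Type*} [AddCommGroup M] [Module κ M]

/-- generalised eigenspaces are spanned by the basis vectors which they contain -/
lemma maxGen_le_span {ι : Type*} [Fintype ι] (b : Basis ι κ M) (T : Module.End κ M) (θ : ι → κ)
    (hb : ∀ i, b i ∈ T.maxGenEigenspace (θ i)) (μ : κ) :
    T.maxGenEigenspace μ ≤ Submodule.span κ (b '' {i | θ i = μ}) := by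
  classical
  intro x hx
  set y := ∑ i with θ i = μ, b.repr x i • b i with hy
  set z := ∑ i with θ i ≠ μ, b.repr x i • b i with hz
  have hxyz : x = y + z := by
    rw [hy, hz, Finset.sum_filter_add_sum_filter_not]
    exact (b.sum_repr x).symm
  have hyS : y ∈ Submodule.span κ (b '' {i | θ i = μ}) :=
    Submodule.sum_mem _ fun i hi => Submodule.smul_mem _ _
      (Submodule.subset_span ⟨i, (mem_filter.mp hi).2, rfl⟩)
  have hyM : y ∈ T.maxGenEigenspace μ := by
    refine Submodule.sum_mem _ fun i hi => Submodule.smul_mem _ _ ?_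
    rw [← (mem_filter.mp hi).2]
    exact hb i
  have hzM : z ∈ T.maxGenEigenspace μ := by
    have : z = x - y := by rw [hxyz, add_sub_cancel_left]
    rw [this]
    exact Submodule.sub_mem _ hx hyM
  have hzS : z ∈ ⨆ ν, ⨆ (_ : ν ≠ μ), T.maxGenEigenspace ν := by
    refine Submodule.sum_mem _ fun i hi => Submodule.smul_mem _ _ ?_
    exact Submodule.mem_iSup_of_mem (θ i)
      (Submodule.mem_iSup_of_mem (mem_filter.mp hi).2 (hb i))
  have h3 := (Module.End.independent_maxGenEigenspace T) μ
  have hz0 : z = 0 := by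
    have := h3.le_bot ⟨hzM, hzS⟩
    simpa using this
  rw [hxyz, hz0, add_zero]
  exact hyS

/-- the generalised eigenspaces are stable -/
lemma pow_mem_maxGen (T : Module.End κ M) (μ ν : κ) (n : ℕ) {x : M}
    (hx : x ∈ T.maxGenEigenspace ν) : ((T - μ • 1) ^ n) x ∈ T.maxGenEigenspace ν := by
  have h1 : ∀ y ∈ T.maxGenEigenspace ν, (T - μ • 1) y ∈ T.maxGenEigenspace ν := by
    intro y hy
    rw [LinearMap.sub_apply, LinearMap.smul_apply, Module.End.one_apply]
    refine Submodule.sub_mem _ ?_ (Submodule.smul_mem _ _ hy)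
    exact Module.End.mapsTo_maxGenEigenspace_of_comm (Commute.refl T) ν hy
  induction n with
  | zero => simpa using hx
  | succ n ih =>
    rw [pow_succ', Module.End.mul_apply]
    exact h1 _ ih

/-- the members of the dual basis are generalised eigenvectors of the transpose -/
lemma coord_pow [FiniteDimensional κ M] {ι : Type*} [Fintype ι] (b : Basis ι κ M)
    (T : Module.End κ M) (θ : ι → κ) (hb : ∀ i, b i ∈ T.maxGenEigenspace (θ i)) (i : ι) (x : M) :
    b.coord i (((T - θ i • 1) ^ finrank κ M) x) = 0 := by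
  classical
  have h1 : ∀ j, b.coord i (((T - θ i • 1) ^ finrank κ M) (b j)) = 0 := by
    intro j
    by_cases hj : θ j = θ i
    · have h2 : b j ∈ T.maxGenEigenspace (θ i) := hj ▸ hb j
      rw [Module.End.maxGenEigenspace_eq_genEigenspace_finrank,
        Module.End.mem_genEigenspace_nat, LinearMap.mem_ker] at h2
      rw [h2, map_zero]
    · have h2 := maxGen_le_span b T θ hb (θ j) (pow_mem_maxGen T (θ i) (θ j) (finrank κ M) (hb j))
      have h3 : Submodule.span κ (b '' {i' | θ i' = θ j}) ≤ LinearMap.ker (b.coord i) := by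
        rw [Submodule.span_le]
        rintro _ ⟨i', hi', rfl⟩
        rw [SetLike.mem_coe, LinearMap.mem_ker, Basis.coord_apply, b.repr_self,
          Finsupp.single_apply, if_neg]
        rintro rfl
        exact hj hi'.symm
      exact h3 h2
  have h4 : (b.coord i) ∘ₗ ((T - θ i • 1) ^ finrank κ M) = 0 := b.ext fun j => by
    rw [LinearMap.comp_apply, h1, LinearMap.zero_apply]
  exact congrArg (fun f : M →ₗ[κ] κ => f x) h4

end

/-- the rows of the matrix of coordinates with respect to a basis of generalised eigenvectors -/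
lemma row_mem {κ : Type*} [Field κ] {m : ℕ} (b : Basis (Fin m) κ (Fin m → κ))
    (T : Matrix (Fin m) (Fin m) κ) (θ : Fin m → κ)
    (hb : ∀ i, b i ∈ Module.End.maxGenEigenspace (Matrix.mulVecLin T) (θ i))
    (h' : Matrix (Fin m) (Fin m) κ) (hh' : ∀ x i, h'.mulVec x i = b.repr x i) (i : Fin m) :
    h' i ∈ Module.End.maxGenEigenspace (Matrix.mulVecLin T.transpose) (θ i) := by
  rw [Module.End.mem_maxGenEigenspace]
  refine ⟨m, ?_⟩
  have hfr : finrank κ (Fin m → κ) = m := by simp
  have key := coord_pow b (Matrix.mulVecLin T) θ hb i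
  rw [hfr] at key
  have h1 : ∀ (S : Matrix (Fin m) (Fin m) κ) (μ : κ) (n : ℕ),
      ((Matrix.mulVecLin S - μ • 1 : Module.End κ (Fin m → κ)) ^ n) =
        Matrix.mulVecLin ((S - μ • 1) ^ n) := by
    intro S μ n
    have h2 : (Matrix.mulVecLin S - μ • 1 : Module.End κ (Fin m → κ)) =
        Matrix.toLin' (S - μ • 1) := by
      rw [map_sub, map_smul, Matrix.toLin'_one]
      rfl
    rw [h2, ← Matrix.toLin'_pow]
    rfl
  rw [h1] at key ⊢
  have h3 : (T.transpose - θ i • 1) ^ m = ((T - θ i • 1) ^ m).transpose := by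
    rw [Matrix.transpose_pow, Matrix.transpose_sub, Matrix.transpose_smul, Matrix.transpose_one]
  rw [h3, Matrix.mulVecLin_apply, Matrix.mulVec_transpose]
  funext k
  have h4 := key (Pi.single k 1)
  rw [Basis.coord_apply, ← hh', Matrix.mulVecLin_apply, Matrix.mulVec_mulVec,
    Matrix.mulVec_single_one] at h4
  rw [Pi.zero_apply, ← h4]
  rfl

end Pool.Agent.Helper11.Dr
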