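import Mathlib
import Pool.Agent.Helper11.Dr.R2
import Pool.Agent.Helper11.Dr.R3
import Pool.Agent.Helper11.Dr.R5
import Pool.Agent.Helper11.Dr.Den
import Pool.Agent.Helper11.Dr.Row
import Pool.Agent.Helper11.Dr.Orth

/-!
# The relation between the determinants on the canonical filtration: linear algebra
-/

universe u v t

open Finset Matrix Module

namespace Pool.Agent.Helper11.Dr

open Pool.Agent.Helper10.GIT Pool.Agent.Helper11.GIT Pool.Agent.Helper11.Can

variable {P : ℕ} {d : Fin P → ℕ}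

section det

variable {κ : Type*} [Field κ] {m : ℕ}

/-- the determinant on the span of a part of a basis of generalised eigenvectors -/
lemma det_restrict_eq (b : Basis (Fin m) κ (Fin m → κ)) (T : Module.End κ (Fin m → κ))
    (θ : Fin m → κ) (hb : ∀ i, b i ∈ T.maxGenEigenspace (θ i)) (s : Finset (Fin m))
    (S : Submodule κ (Fin m → κ)) (hS : S = Submodule.span κ (b '' (s : Set (Fin m))))
    (hT : ∀ x ∈ S, T x ∈ S) : LinearMap.det (T.restrict hT) = ∏ i ∈ s, θ i := by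
  classical
  have hmem : ∀ i : s, b i ∈ S := fun i => by
    rw [hS]
    exact Submodule.subset_span ⟨i, i.2, rfl⟩
  let v : s → S := fun i => ⟨b i, hmem i⟩
  have hv : LinearIndependent κ v := by
    refine LinearIndependent.of_comp S.subtype ?_
    exact b.linearIndependent.comp (fun i : s => (i : Fin m)) Subtype.val_injective
  have hspan : ⊤ ≤ Submodule.span κ (Set.range v) := by
    rintro ⟨x, hx⟩ -
    have h1 : (Submodule.span κ (Set.range v)).map S.subtype = S := by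
      rw [Submodule.map_span, ← Set.range_comp]
      refine Eq.trans ?_ hS.symm
      congr 1
      ext y
      constructor
      · rintro ⟨i, rfl⟩
        exact ⟨i, i.2, rfl⟩
      · rintro ⟨i, hi, rfl⟩
        exact ⟨⟨i, hi⟩, rfl⟩
    have h2 : x ∈ (Submodule.span κ (Set.range v)).map S.subtype := by rw [h1]; exact hx
    obtain ⟨y, hy, hyx⟩ := h2
    have h3 : y = ⟨x, hx⟩ := Subtype.ext hyx
    rw [← h3]
    exact hy
  have h1 := det_eq_prod_of_eigen (Basis.mk hv hspan) (T.restrict hT) (fun i : s => θ i) (by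
    intro i
    rw [Basis.mk_apply, Module.End.mem_maxGenEigenspace]
    obtain ⟨n, hn⟩ := (Module.End.mem_maxGenEigenspace _ _ _).mp (hb i)
    refine ⟨n, Subtype.ext ?_⟩
    have key : ∀ (n : ℕ) (y : S), ((((T.restrict hT - θ i • 1 : Module.End κ S)) ^ n) y : S) =
        (((T - θ i • 1) ^ n) (y : Fin m → κ) : Fin m → κ) := by
      intro n
      induction n with
      | zero => intro y; simp
      | succ n ih =>
        intro y
        rw [pow_succ, pow_succ, Module.End.mul_apply, Module.End.mul_apply, ih]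
        rfl
    rw [key, hn]
    rfl)
  rw [h1, Finset.prod_coe_sort]

end det

section core

variable {K : Type v} [Field K] {Ω : Type t} [Field Ω] [IsAlgClosed Ω] [Algebra K Ω]

/-- **The relation between the determinants on the optimal filtration.** -/
theorem prod_psi_eq_one {A N : Family d Ω} (hNA : ∀ χ, N χ ⊆ A χ) {h₁ : Mats d Ω}
    {γ : WSpace d} (ho : Optimal A N h₁ γ) (G B : Mats d Ω)
    (hGB : ∀ c, G c * B c = 1) (hGA : ∀ c, mten c (G c) ∈ A (two c))
    {D : ℕ} (hD : 0 < D) (hDF : ∀ c a, flag h₁ γ c a = flag h₁ γ c ((⌈(D : ℝ) * a⌉ : ℝ) / D))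
    (T : Mats d Ω) (hT : ∀ c a, ∀ x ∈ flag h₁ γ c a, Matrix.mulVecLin (T c) x ∈ flag h₁ γ c a)
    (hTdet : ∀ c, (T c).det ≠ 0) (ψ : Ωˣ →* Multiplicative ℚ)
    (hψA : ∀ (h' : Mats d Ω) (θ : Let d → Ωˣ), (∀ c, (h' c).det ≠ 0) →
      (∀ c b, h' c b ∈ Module.End.maxGenEigenspace (Matrix.mulVecLin (T c).transpose)
        (θ ⟨c, b⟩ : Ω)) →
      ∀ w ∈ suppW h' A, ∏ i, ψ (θ (lt w.2 i)) = 1)
    (hψdet : ∀ (c : Fin P) (u : Ωˣ), (u : Ω) = (T c).det → ψ u = 1)
    (δ : Fin P → ℕ → Ωˣ)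
    (hδ : ∀ c i, 0 < i → (δ c i : Ω) =
      LinearMap.det ((Matrix.mulVecLin (T c)).restrict (hT c ((i : ℝ) / D))))
    (M : ℕ) (hM : ∀ c, flag h₁ γ c (((M + 1 : ℕ) : ℝ) / D) = ⊥) :
    ∏ c, ∏ i ∈ Icc 1 M, ψ (δ c i) = 1 := by
  classical
  have hD' : (0 : ℝ) < D := by exact_mod_cast hD
  -- properties of the flags
  have hanti : ∀ c, Antitone fun a => flag h₁ γ c a := fun c a a' haa' x hx b hb =>
    hx b (lt_of_lt_of_le hb haa')
  have htop : ∀ c, ∃ L, flag h₁ γ c L = ⊤ := by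
    intro c
    obtain ⟨L, hL⟩ := (Set.finite_range (fun s : (Σ c : Fin P, Fin (d c)) => γ s)).bddBelow
    refine ⟨L, ?_⟩
    rw [eq_top_iff]
    intro x _ b hb
    exact absurd hb (not_lt.mpr (hL ⟨⟨c, b⟩, rfl⟩))
  have hcont : ∀ c a x, (∀ a' < a, x ∈ flag h₁ γ c a') → x ∈ flag h₁ γ c a := by
    intro c a x hx b hb
    obtain ⟨a', h1, h2⟩ := exists_between hb
    exact hx a' h2 b h1
  have hfr : ∀ c : Fin P, finrank Ω (Fin (d c) → Ω) = d c := fun c => by simp
  choose b γ₀ θ₀ hb hbγ hbF using fun c => exists_eigen_family (Matrix.mulVecLin (T c))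
    (fun a => flag h₁ γ c a) (hanti c) ⟨_, hM c⟩ (htop c) (hcont c) (hT c) (hfr c)
  -- the eigenvalues are units
  have hθ0 : ∀ c i, θ₀ c i ≠ 0 := by
    intro c i h0
    obtain ⟨n, hn⟩ := (Module.End.mem_maxGenEigenspace _ _ _).mp (hb c i)
    rw [h0, zero_smul, sub_zero] at hn
    have hinj : Function.Injective (Matrix.mulVecLin (T c)) := by
      intro x y hxy
      have h1 := congrArg ((T c)⁻¹).mulVec hxy
      simp only [Matrix.mulVecLin_apply] at h1
      rwa [Matrix.mulVec_mulVec, Matrix.mulVec_mulVec,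
        Matrix.nonsing_inv_mul _ (isUnit_iff_ne_zero.mpr (hTdet c)), Matrix.one_mulVec,
        Matrix.one_mulVec] at h1
    have hinj' : Function.Injective ((Matrix.mulVecLin (T c) : Module.End Ω (Fin (d c) → Ω)) ^ n) := by
      rw [Module.End.coe_pow]
      exact hinj.iterate n
    exact (b c).ne_zero i (hinj' (by rw [hn, map_zero]))
  let θ : Let d → Ωˣ := fun l => Units.mk0 (θ₀ l.1 l.2) (hθ0 l.1 l.2)
  -- the matrices
  let h' : Mats d Ω := fun c =>
    LinearMap.toMatrix' ((b c).equivFun : (Fin (d c) → Ω) →ₗ[Ω] (Fin (d c) → Ω))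
  have hh'v : ∀ c x i, (h' c).mulVec x i = (b c).repr x i := by
    intro c x i
    rw [LinearMap.toMatrix'_mulVec]
    rfl
  have hh' : ∀ c, (h' c).det ≠ 0 := by
    intro c
    rw [LinearMap.det_toMatrix']
    exact (LinearEquiv.isUnit_det' (b c).equivFun).ne_zero
  let γ' : WSpace d := WithLp.toLp 2 fun l => γ₀ l.1 l.2
  have hγ' : ∀ c i, γ' ⟨c, i⟩ = γ₀ c i := fun c i => rfl
  have hflag : ∀ c a, flag h' γ' c a = flag h₁ γ c a := by
    intro c a
    ext x
    rw [hbF c a, (b c).mem_span_image, mem_flag]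
    simp only [hh'v, hγ']
    constructor
    · intro h i hi
      by_contra hlt
      exact (Finsupp.mem_support_iff.mp hi) (h i (not_le.mp hlt))
    · intro h i hi
      by_contra hne
      exact absurd (h (Finsupp.mem_support_iff.mpr hne)) (not_le.mpr hi)
  have hrow : ∀ c i, h' c i ∈ Module.End.maxGenEigenspace (Matrix.mulVecLin (T c).transpose)
      (θ ⟨c, i⟩ : Ω) := fun c i =>
    row_mem (b c) (T c) (θ₀ c) (hb c) (h' c) (hh'v c) i
  -- the weights given by `ψ`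
  let x : Let d → ℚ := fun l => Multiplicative.toAdd (ψ (θ l))
  let μ : WSpace d := WithLp.toLp 2 fun l => (x l : ℝ)
  have hμx : ∀ l, μ l = x l := fun l => rfl
  have hμA : ∀ w ∈ suppW h' A, wgt μ w = 0 := by
    intro w hw
    have h1 := hψA h' θ hh' hrow w hw
    have h2 : wgt μ w = ((∑ i, x (lt w.2 i) : ℚ) : ℝ) := by
      unfold wgt
      push_cast
      rfl
    rw [h2]
    have h3 : ∑ i, x (lt w.2 i) = Multiplicative.toAdd (∏ i, ψ (θ (lt w.2 i))) := by
      rw [toAdd_prod]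
    rw [h3, h1, toAdd_one, Rat.cast_zero]
  have hμ : ∀ c, ∑ i, μ ⟨c, i⟩ = 0 := by
    intro c
    have h1 : ((∏ i, θ ⟨c, i⟩ : Ωˣ) : Ω) = (T c).det := by
      have h2 := det_eq_prod_of_eigen (b c) (Matrix.mulVecLin (T c)) (θ₀ c) (hb c)
      rw [← Matrix.toLin'_apply', LinearMap.det_toLin'] at h2
      rw [h2, Units.coe_prod]
      rfl
    have h2 := hψdet c _ h1
    have h3 : ∑ i, μ ⟨c, i⟩ = ((∑ i, x ⟨c, i⟩ : ℚ) : ℝ) := by
      push_cast
      rfl
    have h4 : ∑ i, x ⟨c, i⟩ = Multiplicative.toAdd (ψ (∏ i, θ ⟨c, i⟩)) := by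
      rw [map_prod, toAdd_prod]
    rw [h3, h4, h2, toAdd_one, Rat.cast_zero]
  -- orthogonality and duality
  have hadp := adapted_of_flag_eq ho.1 hh' G B hGB hGA hflag
  have horth := orthogonal hNA ho hh' G B hGB hGA hflag hμ hμA
  choose π hπ using exists_dual_perm hadp G B hGB hGA hμA
  -- the weights are integral
  have hint : ∀ l : Let d, ∃ n : ℤ, (D : ℝ) * γ' l = n := by
    rintro ⟨c, i⟩
    refine ⟨⌈(D : ℝ) * γ' ⟨c, i⟩⌉, le_antisymm (Int.le_ceil _) ?_⟩
    have h1 : b c i ∈ flag h₁ γ c (γ' ⟨c, i⟩) := (hbγ c i _).mpr le_rfl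
    rw [hDF c] at h1
    have h2 := (hbγ c i _).mp h1
    rw [div_le_iff₀ hD', mul_comm (γ₀ c i)] at h2
    exact h2
  choose n hn using hint
  have hle : ∀ (c : Fin P) (i : Fin (d c)) (j : ℤ), (j : ℝ) / D ≤ γ' ⟨c, i⟩ ↔ j ≤ n ⟨c, i⟩ := by
    intro c i j
    rw [div_le_iff₀ hD', mul_comm, hn, Int.cast_le]
  have hnup : ∀ l, n l ≤ M := by
    rintro ⟨c, i⟩
    by_contra hlt
    have h1 : ((M + 1 : ℕ) : ℤ) ≤ n ⟨c, i⟩ := by push_cast; omega
    have h2 := (hle c i _).mpr h1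
    have h3 : b c i ∈ flag h₁ γ c (((M + 1 : ℕ) : ℝ) / D) := by
      refine (hbγ c i _).mpr ?_
      have h4 : (((M + 1 : ℕ) : ℤ) : ℝ) = ((M + 1 : ℕ) : ℝ) := by norm_cast
      rw [h4] at h2
      exact h2
    rw [hM c, Submodule.mem_bot] at h3
    exact (b c).ne_zero i h3
  have hnπ : ∀ c i, n ⟨c, π c i⟩ = - n ⟨c, i⟩ := by
    intro c i
    have h1 := hn ⟨c, π c i⟩
    rw [(hπ c i).1, mul_neg, hn] at h1
    exact_mod_cast h1.symm
  have hxπ : ∀ c i, x ⟨c, π c i⟩ = - x ⟨c, i⟩ := by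
    intro c i
    have h1 := (hπ c i).2
    rw [hμx, hμx, ← Rat.cast_neg] at h1
    exact Rat.cast_injective h1
  have habs : ∀ l, |n l| ≤ M := by
    rintro ⟨c, i⟩
    rw [abs_le]
    refine ⟨?_, hnup _⟩
    have h1 := hnup ⟨c, π c i⟩
    rw [hnπ] at h1
    omega
  have hsumπ : ∀ j : ℕ, ∑ l : Let d with (j : ℤ) ≤ n l, x l =
      - ∑ l : Let d with n l ≤ -(j : ℤ), x l := by
    intro j
    rw [Finset.sum_filter, Finset.sum_filter, Fintype.sum_sigma, Fintype.sum_sigma,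
      ← sum_neg_distrib]
    refine sum_congr rfl fun c _ => ?_
    rw [← Equiv.sum_comp (π c), ← sum_neg_distrib]
    refine sum_congr rfl fun i _ => ?_
    rw [hnπ, hxπ]
    by_cases h1 : n ⟨c, i⟩ ≤ -(j : ℤ)
    · rw [if_pos h1, if_pos (by omega)]
    · rw [if_neg h1, if_neg (by omega), neg_zero]
  have hAbel := sum_mul_eq n x M habs fun j _ => hsumπ j
  have hsum0 : ∑ l, (n l : ℚ) * x l = 0 := by
    have h1 : ((∑ l, (n l : ℚ) * x l : ℚ) : ℝ) = 0 := by
      push_cast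
      have h2 : ∀ l, ((n l : ℤ) : ℝ) * ((x l : ℚ) : ℝ) = D * (γ' l * μ l) := by
        intro l
        rw [← hn, hμx]
        ring
      rw [sum_congr rfl fun l _ => h2 l, ← mul_sum, horth, mul_zero]
    exact_mod_cast h1
  rw [hsum0] at hAbel
  have hfin : ∑ j ∈ Icc 1 M, ∑ l : Let d with (j : ℤ) ≤ n l, x l = 0 := by
    rw [sum_congr rfl fun j _ => hsumπ j, sum_neg_distrib]
    linarith
  -- the determinants
  have hdetδ : ∀ c, ∀ j ∈ Icc 1 M, Multiplicative.toAdd (ψ (δ c j)) =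
      ∑ i : Fin (d c) with (j : ℤ) ≤ n ⟨c, i⟩, x ⟨c, i⟩ := by
    intro c j hj
    have hj0 : 0 < j := (mem_Icc.mp hj).1
    have h1 := det_restrict_eq (b c) (Matrix.mulVecLin (T c)) (θ₀ c) (hb c)
      (univ.filter fun i => (j : ℤ) ≤ n ⟨c, i⟩) (flag h₁ γ c ((j : ℝ) / D)) (by
        rw [hbF c]
        congr 2
        ext i
        rw [Finset.coe_filter, Set.mem_ofPred_eq, Set.mem_ofPred_eq, ← hle, ← hγ']
        simp) (hT c _)
    have h2 : δ c j = ∏ i : Fin (d c) with (j : ℤ) ≤ n ⟨c, i⟩, θ ⟨c, i⟩ := by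
      apply Units.ext
      rw [hδ c j hj0, h1, Units.coe_prod]
      rfl
    rw [h2, map_prod, toAdd_prod]
  have key : Multiplicative.toAdd (∏ c, ∏ j ∈ Icc 1 M, ψ (δ c j)) = 0 := by
    rw [toAdd_prod]
    have h1 : ∀ c, Multiplicative.toAdd (∏ j ∈ Icc 1 M, ψ (δ c j)) =
        ∑ j ∈ Icc 1 M, ∑ i : Fin (d c) with (j : ℤ) ≤ n ⟨c, i⟩, x ⟨c, i⟩ := by
      intro c
      rw [toAdd_prod]
      exact sum_congr rfl fun j hj => hdetδ c j hj
    rw [sum_congr rfl fun c _ => h1 c, sum_comm, ← hfin]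
    refine sum_congr rfl fun j _ => ?_
    rw [Finset.sum_filter, Fintype.sum_sigma]
    refine sum_congr rfl fun c _ => ?_
    rw [Finset.sum_filter]
  exact Multiplicative.toAdd.injective (by rw [key, toAdd_one])

end core

end Pool.Agent.Helper11.Dr
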