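import Mathlib
import Pool.Agent.Helper11.CanThm
import Pool.Agent.Helper10.RelThm
import Pool.Agent.Helper11.Dr.Core

/-!
# Symmetries, generalised eigenvectors and tensors given by algebraic classes
-/

universe u v w t

open CategoryTheory TensorProduct Finset Matrix

namespace Pool.Agent.Helper11.Dr

open Pool.Agent.Helper10 hiding IsAlgAut parityPart
open SmProjVar SPre Pool.Agent.Helper10.GIT Pool.Agent.Helper11.Iso Pool.Agent.Helper11.Can

section eig

variable {Ω : Type*} [Field Ω]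

lemma map_mem_maxGen {M N : Type*} [AddCommGroup M] [Module Ω M] [AddCommGroup N]
    [Module Ω N] (f : Module.End Ω M) (g : Module.End Ω N) (ψ : M →ₗ[Ω] N)
    (h : ∀ x, g (ψ x) = ψ (f x)) {l : Ω} {x : M} (hx : x ∈ f.maxGenEigenspace l) :
    ψ x ∈ g.maxGenEigenspace l := by
  rw [Module.End.mem_maxGenEigenspace] at hx ⊢
  obtain ⟨n, hn⟩ := hx
  refine ⟨n, ?_⟩
  have h1 : ∀ (n : ℕ) (x : M), ((g - l • 1) ^ n) (ψ x) = ψ (((f - l • 1) ^ n) x) := by
    intro n
    induction n with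
    | zero => intro x; simp
    | succ n ih =>
      intro x
      rw [pow_succ, pow_succ, Module.End.mul_apply, Module.End.mul_apply, ← ih]
      congr 1
      simp [h]
  rw [h1, hn, map_zero]

/-- generalised eigenvectors of the inverse -/
lemma maxGen_inv {m : ℕ} {ρ : Matrix (Fin m) (Fin m) Ω} (hρ : ρ.det ≠ 0) {l : Ωˣ}
    {x : Fin m → Ω} (hx : x ∈ Module.End.maxGenEigenspace (Matrix.mulVecLin ρ⁻¹) (l : Ω)) :
    x ∈ Module.End.maxGenEigenspace (Matrix.mulVecLin ρ) ((l⁻¹ : Ωˣ) : Ω) := by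
  rw [Module.End.mem_maxGenEigenspace] at hx ⊢
  obtain ⟨n, hn⟩ := hx
  refine ⟨n, ?_⟩
  have hu : IsUnit ρ.det := isUnit_iff_ne_zero.mpr hρ
  set F : Module.End Ω (Fin m → Ω) := Matrix.mulVecLin ρ with hF
  set F' : Module.End Ω (Fin m → Ω) := Matrix.mulVecLin ρ⁻¹ with hF'
  have hFF : F * F' = 1 := LinearMap.ext fun x => by
    rw [Module.End.mul_apply, hF, hF', Matrix.mulVecLin_apply, Matrix.mulVecLin_apply,
      Matrix.mulVec_mulVec, Matrix.mul_nonsing_inv _ hu, Matrix.one_mulVec, Module.End.one_apply]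
  have hFF' : F' * F = 1 := LinearMap.ext fun x => by
    rw [Module.End.mul_apply, hF, hF', Matrix.mulVecLin_apply, Matrix.mulVecLin_apply,
      Matrix.mulVec_mulVec, Matrix.nonsing_inv_mul _ hu, Matrix.one_mulVec, Module.End.one_apply]
  have hcomm : Commute F (F' - (l : Ω) • 1) := by
    unfold Commute SemiconjBy
    rw [mul_sub, sub_mul, hFF, hFF', mul_smul_comm, smul_mul_assoc, mul_one, one_mul]
  have h1 : F - ((l⁻¹ : Ωˣ) : Ω) • (1 : Module.End Ω (Fin m → Ω)) =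
      (-((l⁻¹ : Ωˣ) : Ω)) • (F * (F' - (l : Ω) • 1)) := by
    rw [mul_sub, hFF, mul_smul_comm, mul_one, smul_sub, smul_smul, neg_mul, Units.inv_mul,
      neg_smul, neg_smul, one_smul]
    abel
  rw [h1, smul_pow, hcomm.mul_pow, LinearMap.smul_apply, Module.End.mul_apply, hn, map_zero,
    smul_zero]

end eig

section symm

variable {k : Type u} [Field k] {K : Type t} [Field K] {Ω : Type v} [Field Ω] [Algebra K Ω]
  {P : SPre.{u, v, w, t} k K Ω}

lemma sym_coor' {V : SmProjVar k} {m : ℕ} {e : Fin m → P.H V} (γ : P.Sym) {l : Ω}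
    (hl : ∀ x, P.tr V (γ.g V x) = l * P.tr V x)
    {ρ : Matrix (Fin m) (Fin m) Ω} (hdet : ρ.det ≠ 0)
    (hρ : ∀ b, γ.g V (e b) = ∑ a, ρ a b • e a) (y : P.H V) :
    coor P e (γ.g V y) = l • ((ρ⁻¹)ᵀ *ᵥ coor P e y) := by
  have hu : IsUnit ρ.det := isUnit_iff_ne_zero.mpr hdet
  have h5 : ∀ b, e b = ∑ a, ρ⁻¹ a b • γ.g V (e a) := by
    intro b
    simp only [hρ, Finset.smul_sum, smul_smul]
    rw [Finset.sum_comm]
    have h6 : ∀ c, ∑ a, (ρ⁻¹ a b * ρ c a) • e c = (ρ * ρ⁻¹) c b • e c := by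
      intro c
      rw [← Finset.sum_smul, Matrix.mul_apply]
      congr 1
      exact sum_congr rfl fun a _ => mul_comm _ _
    rw [sum_congr rfl fun c _ => h6 c, Matrix.mul_nonsing_inv _ hu]
    simp [Matrix.one_apply, ite_smul]
  funext b
  rw [coor_apply, h5 b, Finset.mul_sum, map_sum, Pi.smul_apply, Matrix.mulVec, dotProduct,
    smul_eq_mul, Finset.mul_sum]
  refine sum_congr rfl fun a _ => ?_
  rw [mul_smul_comm, map_smul, smul_eq_mul, ← map_mul (γ.g V), hl,
    Matrix.transpose_apply, coor_apply]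
  ring

/-- the square of the determinant of a symmetry -/
lemma sym_det_sq {V : SmProjVar k} {m : ℕ} {e : Fin m → P.H V}
    {B : Matrix (Fin m) (Fin m) Ω} (hB : gmat P e * B = 1) (γ : P.Sym) {l : Ω}
    (hl : ∀ x, P.tr V (γ.g V x) = l * P.tr V x) {ρ : Matrix (Fin m) (Fin m) Ω}
    (hρ : ∀ b, γ.g V (e b) = ∑ a, ρ a b • e a) : ρ.det ^ 2 = l ^ m := by
  have h1 : ρᵀ * gmat P e * ρ = l • gmat P e := by
    ext i j
    have h2 := hl (e i * e j)
    rw [map_mul, hρ, hρ, Finset.sum_mul, map_sum] at h2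
    rw [Matrix.smul_apply, smul_eq_mul, gmat_apply, ← h2, Matrix.mul_apply]
    simp only [Matrix.mul_apply, Finset.sum_mul, Finset.mul_sum, map_sum, smul_mul_assoc,
      mul_smul_comm, map_smul, smul_eq_mul, Matrix.transpose_apply, gmat_apply]
    rw [Finset.sum_comm]
    exact sum_congr rfl fun a _ => sum_congr rfl fun b _ => by ring
  have hG : (gmat P e).det ≠ 0 := by
    intro h0
    have h2 := congrArg Matrix.det hB
    rw [Matrix.det_mul, h0, zero_mul, Matrix.det_one] at h2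
    exact zero_ne_one h2
  have h2 := congrArg Matrix.det h1
  rw [Matrix.det_mul, Matrix.det_mul, Matrix.det_transpose, Matrix.det_smul,
    Fintype.card_fin] at h2
  have h3 : (ρ.det ^ 2 - l ^ m) * (gmat P e).det = 0 := by
    rw [sub_mul, ← h2]
    ring
  exact sub_eq_zero.mp ((mul_eq_zero.mp h3).resolve_right hG)

end symm

section words

variable {k : Type u} [Field k] {K : Type t} [Field K] {Ω : Type v} [Field Ω] [Algebra K Ω]
  {S : SPre.{u, v, w, t} k K Ω} {P : ℕ} {d : Fin P → ℕ} {V : Fin P → SmProjVar k}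

/-- change of bases in tensors given by classes -/
lemma act_ctens' (e : ∀ c, Fin (d c) → S.H (V c)) (h : Mats d Ω) {χ : Shape P}
    {T X : SmProjVar k} (p : T.toOver ⟶ X.toOver)
    (f : ∀ i : Fin χ.1, T.toOver ⟶ (V (χ.2 i)).toOver) (r : S.H T) (x : S.H X) :
    act (sh h χ) (ctens S e p f r x) =
      ctens S (fun c b => ∑ j, h c b j • e c j) p f r x := by
  funext w
  have h1 : wd S (fun c b => ∑ j, h c b j • e c j) f w =
      ∑ w' : Word d χ, (∏ i, h (χ.2 i) (w i) (w' i)) • wd S e f w' := by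
    unfold wd
    have h2 : (fun i => S.pull (f i) (∑ j, h (χ.2 i) (w i) j • e (χ.2 i) j)) =
        fun i => ∑ a, h (χ.2 i) (w i) a • S.pull (f i) (e (χ.2 i) a) := by
      funext i
      rw [map_sum (S.pull (f i))]
      exact Finset.sum_congr rfl fun a _ => map_smul (S.pull (f i)) _ _
    rw [h2]
    exact ofFn_prod_sum (α := fun i : Fin χ.1 => Fin (d (χ.2 i)))
      (fun i a => h (χ.2 i) (w i) a) (fun i a => S.pull (f i) (e (χ.2 i) a))
  rw [act_apply]
  unfold ctens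
  rw [h1, Finset.mul_sum, map_sum]
  refine Finset.sum_congr rfl fun w' _ => ?_
  rw [mul_smul_comm, map_smul, smul_eq_mul]
  rfl

variable {T₀ : S.Test}

lemma one_mem_E (X : SmProjVar k) : (1 : S.H X) ∈ T₀.E X 1 := by
  unfold Test.E
  rw [Module.End.mem_maxGenEigenspace]
  refine ⟨1, ?_⟩
  rw [pow_one, LinearMap.sub_apply, LinearMap.smul_apply, Module.End.one_apply, one_smul]
  exact sub_eq_zero.mpr (map_one (T₀.γ.g X))

lemma ofFn_mem_E {X : SmProjVar k} {n : ℕ} (y : Fin n → S.H X) (θ : Fin n → Ω)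
    (h : ∀ i, y i ∈ T₀.E X (θ i)) : (List.ofFn y).prod ∈ T₀.E X (∏ i, θ i) := by
  induction n with
  | zero =>
    rw [List.ofFn_zero, List.prod_nil, Fin.prod_univ_zero]
    exact one_mem_E X
  | succ n ih =>
    rw [List.ofFn_succ, List.prod_cons, Fin.prod_univ_succ]
    exact Test.mul_mem_E (h 0) (ih _ _ fun i => h i.succ)

/-- words in generalised eigenvectors -/
lemma wd_mem_E {v : ∀ c, Fin (d c) → S.H (V c)} {θ : Let d → Ω}
    (hv : ∀ c b, v c b ∈ T₀.E (V c) (θ ⟨c, b⟩)) {χ : Shape P} {T : SmProjVar k}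
    (f : ∀ i : Fin χ.1, T.toOver ⟶ (V (χ.2 i)).toOver) (w : Word d χ) :
    wd S v f w ∈ T₀.E T (∏ i, θ (lt w i)) :=
  ofFn_mem_E _ _ fun _ => Test.pull_mem_E _ (hv _ _)

/-- the traces of products with generalised eigenvectors -/
lemma tr_eq_zero_of_mem_E [IsAlgClosed Ω] {T X : SmProjVar k} (p : T.toOver ⟶ X.toOver)
    (hX : T₀.Good X) {r : S.H T} (hr : r ∈ S.alg T) (x : S.H X) {y : S.H T} {c : Ω}
    (hy : y ∈ T₀.E T c) (hc : c ∉ T₀.U) : S.tr T (r * S.pull p x * y) = 0 := by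
  obtain ⟨t, ht, htr⟩ := T₀.tr T
  refine Test.E_induction T₀ (p := fun x => S.tr T (r * S.pull p x * y) = 0) ?_ ?_ ?_ x
  · intro m x hx
    by_cases hx0 : x = 0
    · rw [hx0, map_zero (S.pull _), mul_zero, zero_mul, map_zero]
    have hm : m ∈ T₀.U := hX.mem hx hx0
    refine Test.alg_induction (T := T₀) (p := fun r => S.tr T (r * S.pull p x * y) = 0)
      ?_ ?_ ?_ hr
    · intro a ha z hz _
      refine Test.tr_eq_zero (Test.mul_mem_E (Test.mul_mem_E hz (Test.pull_mem_E _ hx)) hy)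
        (fun h0 => hc ?_) htr
      refine T₀.div c (a * m) ?_ (T₀.U.mul_mem ha hm)
      have h1 : c * (a * m) = a * m * c := by ring
      rw [h1, h0]
      exact ht
    · rw [zero_mul, zero_mul, map_zero]
    · intro y z hy hz
      rw [add_mul, add_mul, map_add, hy, hz, add_zero]
  · rw [map_zero (S.pull _), mul_zero, zero_mul, map_zero]
  · intro y z hy hz
    rw [map_add (S.pull _), mul_add, add_mul, map_add, hy, hz, add_zero]

/-- the weights of the tensors given by algebraic classes -/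
theorem mem_U_of_mem_supp [IsAlgClosed Ω] {𝒳 : SmProjVar k → Prop}
    (h𝒳 : ∀ X, 𝒳 X → T₀.Good X) (e : ∀ c, Fin (d c) → S.H (V c)) (ρ : Mats d Ω)
    (hρ : ∀ c b, T₀.γ.g (V c) (e c b) = ∑ a, ρ c a b • e c a) (hdet : ∀ c, (ρ c).det ≠ 0)
    (h' : Mats d Ω) (θ : Let d → Ωˣ)
    (hθ : ∀ c b, h' c b ∈ Module.End.maxGenEigenspace (Matrix.mulVecLin (ρ c)⁻¹)
      (θ ⟨c, b⟩ : Ω)) {χ : Shape P} {z : Ten d Ω χ} (hz : z ∈ famA S e 𝒳 χ) {w : Word d χ}
    (hw : act (sh h' χ) z w ≠ 0) : (((∏ i, θ (lt w i))⁻¹ : Ωˣ) : Ω) ∈ T₀.U := by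
  obtain ⟨T, X, p, f, r, x, hX, hr, rfl⟩ := hz
  rw [act_ctens'] at hw
  by_contra hc
  have hv : ∀ c b, (∑ j, h' c b j • e c j) ∈ T₀.E (V c) (((θ ⟨c, b⟩)⁻¹ : Ωˣ) : Ω) := by
    intro c b
    have h1 := maxGen_inv (hdet c) (hθ c b)
    have h2 := map_mem_maxGen (Matrix.mulVecLin (ρ c))
      ((T₀.γ.g (V c) : S.H (V c) →ₐ[Ω] S.H (V c)).toLinearMap : Module.End Ω (S.H (V c)))
      (Fintype.linearCombination Ω (e c)) (fun x => by
        change T₀.γ.g (V c) _ = _
        rw [Fintype.linearCombination_apply, Fintype.linearCombination_apply, map_sum]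
        simp only [map_smul, hρ, Matrix.mulVecLin_apply, Matrix.mulVec, dotProduct,
          Finset.sum_smul, Finset.smul_sum, smul_smul]
        rw [Finset.sum_comm]
        exact sum_congr rfl fun i _ => sum_congr rfl fun j _ => by rw [mul_comm]) h1
    rw [Fintype.linearCombination_apply] at h2
    exact h2
  have h1 := wd_mem_E (θ := fun l => (((θ l)⁻¹ : Ωˣ) : Ω)) hv f w
  have h2 : ∏ i, (((θ (lt w i))⁻¹ : Ωˣ) : Ω) = (((∏ i, θ (lt w i))⁻¹ : Ωˣ) : Ω) := by
    rw [← Units.coe_prod, Finset.prod_inv_distrib]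
  rw [h2] at h1
  exact hw (tr_eq_zero_of_mem_E p (h𝒳 X hX) hr x h1 hc)

end words

end Pool.Agent.Helper11.Dr
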