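import Mathlib

/-!
# DR-4: homomorphisms to the rational numbers detect elements of infinite order

HINT. Let `Q = G ⧸ S`, an additive group in additive notation. If no positive power of `x` is in `S`,
the image `y` of `x` in `Q` has infinite order, so `ℤ → Q`, `n ↦ n y`, is injective, and the
homomorphism `ℤ → ℚ` extends to a homomorphism `Q → ℚ`, because `ℚ` is divisible, hence injective
(`AddCommGrpCat.injective_of_divisible`, or `Module.Baer.of_divisible` with
`Module.Baer.injective` / `Module.Baer.extension_property_addMonoidHom`). Its value at `y` is `1`.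
-/

namespace Pool.Agent.Helper11.Dr

/-- DR-4 -/
theorem exists_pow_mem {G : Type*} [CommGroup G] (S : Subgroup G) (x : G)
    (h : ∀ ψ : G →* Multiplicative ℚ, (∀ s ∈ S, ψ s = 1) → ψ x = 1) :
    ∃ m : ℕ, 0 < m ∧ x ^ m ∈ S := by
  by_contra hno
  push Not at hno
  set Q := Additive (G ⧸ S) with hQ
  let y : Q := Additive.ofMul (QuotientGroup.mk x : G ⧸ S)
  have hinj : Function.Injective (zmultiplesHom Q y) := by
    rw [injective_iff_map_eq_zero]
    intro n hn
    by_contra hn0
    have hn' : n • y = 0 := by simpa using hn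
    have h1 : (n.natAbs : ℤ) • y = 0 := by
      rcases Int.natAbs_eq n with hh | hh
      · rw [← hh]; exact hn'
      · have : (n.natAbs : ℤ) = -n := by omega
        rw [this, neg_smul, hn', neg_zero]
    have h2 : (QuotientGroup.mk (x ^ n.natAbs) : G ⧸ S) = 1 := by
      rw [natCast_zsmul] at h1
      have h3 : Additive.ofMul ((QuotientGroup.mk x : G ⧸ S) ^ n.natAbs) = 0 := by
        rw [ofMul_pow]; exact h1
      rw [QuotientGroup.mk_pow]
      exact Additive.ofMul.injective h3
    exact hno _ (Int.natAbs_pos.2 hn0) ((QuotientGroup.eq_one_iff _).1 h2)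
  have hB : Module.Baer ℤ ℚ := Module.Baer.of_divisible ℚ
  obtain ⟨φ, hφ⟩ := hB.extension_property_addMonoidHom (zmultiplesHom Q y) hinj
    (Int.castAddHom ℚ)
  have hφy : φ y = 1 := by
    have := DFunLike.congr_fun hφ 1
    simpa using this
  let ψ : G →* Multiplicative ℚ :=
    { toFun := fun g => Multiplicative.ofAdd (φ (Additive.ofMul (QuotientGroup.mk g : G ⧸ S)))
      map_one' := by
        rw [QuotientGroup.mk_one, ofMul_one, map_zero, ofAdd_zero]
      map_mul' := fun a b => by
        rw [QuotientGroup.mk_mul, ofMul_mul, map_add, ofAdd_add] }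
  have hψ : ∀ g : G, ψ g = Multiplicative.ofAdd (φ (Additive.ofMul (QuotientGroup.mk g : G ⧸ S))) :=
    fun g => rfl
  have h1 := h ψ fun s hs => by
    rw [hψ, (QuotientGroup.eq_one_iff s).2 hs, ofMul_one, map_zero, ofAdd_zero]
  rw [hψ] at h1
  have h2 : φ y = 0 := Multiplicative.ofAdd.injective h1
  rw [hφy] at h2
  exact one_ne_zero h2

end Pool.Agent.Helper11.Dr
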