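import Mathlib
import Pool.Agent.Helper11.Dr.Types
import Pool.Agent.Helper11.Dr.CohRel
import Pool.Agent.Helper11.Dr.R4

/-!
# The relation between the determinants on the canonical filtration
-/

universe u v w t

open CategoryTheory TensorProduct Finset Matrix

namespace Pool.Agent.Helper11.Dr

open Pool.Agent.Helper10 hiding IsAlgAut parityPart
open SmProjVar SPre Pool.Agent.Helper10.GIT Pool.Agent.Helper11.Iso Pool.Agent.Helper11.Can
open Pool.Agent.Helper11.GIT
open Pool.Agent.Helper11.Obs (power IsDetOn eigenvalueGroup Stabilises)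

variable {k : Type u} [Field k] {K : Type v} [Field K] [CharZero K]
  (W : WeilCohomology.{u, v, w} k K) {Ω : Type t} [Field Ω] [Algebra K Ω]

/-- the determinant of a symmetry on a subspace, in coordinates -/
lemma det_of_isDetOn {V : SmProjVar k} {m : ℕ} {e : Fin m → W.H V}
    {B : Matrix (Fin m) (Fin m) K} (hB : gr W e * B = 1) (γ : (W.toSPre Ω).Sym) {l : Ω}
    (hl : ∀ x, (W.toSPre Ω).tr V (γ.g V x) = l * (W.toSPre Ω).tr V x)
    {ρ : Matrix (Fin m) (Fin m) Ω} (hdet : ρ.det ≠ 0)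
    (hρ : ∀ b, γ.g V (Obs.one W Ω (e b)) = ∑ a, ρ a b • Obs.one W Ω (e a))
    {F : Submodule K (W.H V)} (hFE : F ≤ Submodule.span K (Set.range e))
    {F₀ : Submodule K (Fin m → K)} (hF₀ : F₀ = F.map (coorK W e))
    {Φ : Submodule Ω (Fin m → Ω)} (hΦ : Φ = Submodule.span Ω (embV Ω '' (F₀ : Set (Fin m → K))))
    (hT : ∀ x ∈ Φ, Matrix.mulVecLin (ρ⁻¹)ᵀ x ∈ Φ) {δ : Ω}
    (hδ : IsDetOn Ω (fun y : Ω ⊗[K] W.H V => γ.g V y) F δ) :
    ∃ n : ℕ, δ = l ^ n * LinearMap.det ((Matrix.mulVecLin (ρ⁻¹)ᵀ).restrict hT) := by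
  classical
  obtain ⟨n, b, ρ', hρ', rfl⟩ := hδ
  have hemb : ∀ y : W.H V, coor (W.toSPre Ω) (fun j => Obs.one W Ω (e j)) (Obs.one W Ω y) =
      embV Ω (coorK W e y) := by
    intro y
    funext i
    rw [coor_apply]
    exact Obs.tr_one_mul W Ω _ _
  have hinj : ∀ y ∈ Submodule.span K (Set.range e), coorK W e y = 0 → y = 0 := by
    intro y hy h0
    rw [← clsK_coorK W e hB hy, h0, map_zero]
  -- the family `coorK (b j)`
  let y : Fin n → (Fin m → K) := fun j => coorK W e (b j : W.H V)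
  have hyind : LinearIndependent K y := by
    rw [Fintype.linearIndependent_iff]
    intro c hc i
    have h1 : coorK W e (((∑ j, c j • b j : F) : W.H V)) = 0 := by
      rw [← hc]
      simp [y, map_sum]
    have h2 := hinj _ (hFE (∑ j, c j • b j : F).2) h1
    have h3 : (∑ j, c j • b j : F) = 0 := Subtype.ext h2
    exact Fintype.linearIndependent_iff.mp b.linearIndependent c h3 i
  have hvind : LinearIndependent Ω (fun j => embV Ω (y j)) :=
    (linearIndependent_algebraMap_comp_iff (S := Ω)).mpr hyind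
  have hmem : ∀ j, embV Ω (y j) ∈ Φ := by
    intro j
    rw [hΦ]
    refine Submodule.subset_span ⟨y j, ?_, rfl⟩
    rw [hF₀]
    exact ⟨b j, (b j).2, rfl⟩
  let v : Fin n → Φ := fun j => ⟨embV Ω (y j), hmem j⟩
  have hv : LinearIndependent Ω v := LinearIndependent.of_comp Φ.subtype hvind
  have hspan : ⊤ ≤ Submodule.span Ω (Set.range v) := by
    rintro ⟨x, hx⟩ -
    have h1 : (Submodule.span Ω (Set.range v)).map Φ.subtype =
        Submodule.span Ω (Set.range fun j => embV Ω (y j)) := by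
      rw [Submodule.map_span, ← Set.range_comp]
      rfl
    have h2 : Φ ≤ Submodule.span Ω (Set.range fun j => embV Ω (y j)) := by
      rw [hΦ, Submodule.span_le]
      rintro _ ⟨z, hz, rfl⟩
      rw [hF₀] at hz
      obtain ⟨z, hz, rfl⟩ := hz
      have h3 : ((∑ j, b.repr ⟨z, hz⟩ j • b j : F) : W.H V) = z :=
        congrArg Subtype.val (b.sum_repr ⟨z, hz⟩)
      have h4 : coorK W e z = ∑ j, b.repr ⟨z, hz⟩ j • y j := by
        have h5 := congrArg (coorK W e) h3
        rw [AddSubmonoidClass.coe_finsetSum, map_sum] at h5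
        rw [← h5]
        exact sum_congr rfl fun j _ => map_smul (coorK W e) _ _
      have h5 : embV Ω (coorK W e z) =
          ∑ j, algebraMap K Ω (b.repr ⟨z, hz⟩ j) • embV Ω (y j) := by
        rw [h4]
        funext i
        simp [embV, Finset.sum_apply, Algebra.smul_def]
      rw [SetLike.mem_coe, h5]
      exact Submodule.sum_mem _ fun j _ => Submodule.smul_mem _ _ (Submodule.subset_span ⟨j, rfl⟩)
    have h3 := h2 hx
    rw [← h1] at h3
    obtain ⟨z, hz, hzx⟩ := h3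
    have h4 : z = ⟨x, hx⟩ := Subtype.ext hzx
    rw [← h4]
    exact hz
  let bΦ : Module.Basis (Fin n) Ω Φ := Module.Basis.mk hv hspan
  have hbΦ : ∀ j, bΦ j = v j := fun j => Module.Basis.mk_apply hv hspan j
  let T : Φ →ₗ[Ω] Φ := (Matrix.mulVecLin (ρ⁻¹)ᵀ).restrict hT
  have hTv : ∀ j, (l • T) (bΦ j) = ∑ i, ρ' i j • bΦ i := by
    intro j
    apply Subtype.ext
    have h1 : γ.g V (Obs.one W Ω (b j : W.H V)) = ∑ i, ρ' i j • Obs.one W Ω (b i : W.H V) := hρ' j
    have h2 := sym_coor' γ hl hdet hρ (Obs.one W Ω (b j : W.H V))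
    rw [h1, map_sum, hemb] at h2
    simp only [map_smul, hemb] at h2
    rw [LinearMap.smul_apply, hbΦ]
    simp only [hbΦ]
    rw [Submodule.coe_smul, AddSubmonoidClass.coe_finsetSum]
    exact h2.symm
  have hmat : LinearMap.toMatrix bΦ bΦ (l • T) = ρ' := by
    ext i j
    rw [LinearMap.toMatrix_apply, hTv, map_sum]
    simp [Finsupp.single_apply]
  refine ⟨Module.finrank Ω Φ, ?_⟩
  rw [← hmat, LinearMap.det_toMatrix, LinearMap.det_smul]

lemma coor_one {V : SmProjVar k} {m : ℕ} (e : Fin m → W.H V) (y : W.H V) :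
    coor (W.toSPre Ω) (fun j => Obs.one W Ω (e j)) (Obs.one W Ω y) = embV Ω (coorK W e y) := by
  funext i
  rw [coor_apply]
  exact Obs.tr_one_mul W Ω _ _

lemma coor_mem_span {V : SmProjVar k} {m : ℕ} (e : Fin m → W.H V) {F : Submodule K (W.H V)}
    {z : (W.toSPre Ω).H V} (hz : z ∈ Obs.bc W Ω F) :
    coor (W.toSPre Ω) (fun j => Obs.one W Ω (e j)) z ∈
      Submodule.span Ω (embV Ω '' (F.map (coorK W e) : Set (Fin m → K))) := by
  refine Obs.bc_induction W Ω (S := F) (p := fun z =>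
    coor (W.toSPre Ω) (fun j => Obs.one W Ω (e j)) z ∈
      Submodule.span Ω (embV Ω '' (F.map (coorK W e) : Set (Fin m → K))))
    (fun z hz => ?_) ?_ (fun x y hx hy => ?_) (fun a x hx => ?_) hz
  · rw [coor_one]
    exact Submodule.subset_span ⟨_, ⟨z, hz, rfl⟩, rfl⟩
  · rw [map_zero]; exact Submodule.zero_mem _
  · rw [map_add]; exact Submodule.add_mem _ hx hy
  · rw [map_smul]; exact Submodule.smul_mem _ _ hx

/-- stable subspaces, in coordinates -/
lemma mulVec_mem_span {V : SmProjVar k} {m : ℕ} {e : Fin m → W.H V}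
    (γ : (W.toSPre Ω).Sym) {l : Ω} (hl0 : l ≠ 0)
    (hl : ∀ x, (W.toSPre Ω).tr V (γ.g V x) = l * (W.toSPre Ω).tr V x)
    {ρ : Matrix (Fin m) (Fin m) Ω} (hdet : ρ.det ≠ 0)
    (hρ : ∀ b, γ.g V (Obs.one W Ω (e b)) = ∑ a, ρ a b • Obs.one W Ω (e a))
    {F : Submodule K (W.H V)} (hγF : ∀ y ∈ F, γ.g V (Obs.one W Ω y) ∈ Obs.bc W Ω F)
    {x : Fin m → Ω}
    (hx : x ∈ Submodule.span Ω (embV Ω '' (F.map (coorK W e) : Set (Fin m → K)))) :
    Matrix.mulVecLin (ρ⁻¹)ᵀ x ∈
      Submodule.span Ω (embV Ω '' (F.map (coorK W e) : Set (Fin m → K))) := by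
  induction hx using Submodule.span_induction with
  | mem x hx =>
    obtain ⟨_, ⟨y, hy, rfl⟩, rfl⟩ := hx
    have h1 := sym_coor' γ hl hdet hρ (Obs.one W Ω y)
    rw [coor_one] at h1
    have h2 : ((ρ⁻¹)ᵀ).mulVec (embV Ω (coorK W e y)) = l⁻¹ •
        coor (W.toSPre Ω) (fun j => Obs.one W Ω (e j)) (γ.g V (Obs.one W Ω y)) := by
      rw [h1, smul_smul, inv_mul_cancel₀ hl0, one_smul]
    rw [Matrix.mulVecLin_apply, h2]
    exact Submodule.smul_mem _ _ (coor_mem_span W e (hγF y hy))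
  | zero => rw [map_zero]; exact Submodule.zero_mem _
  | add x y _ _ hx hy => rw [map_add]; exact Submodule.add_mem _ hx hy
  | smul r x _ hx => rw [map_smul]; exact Submodule.smul_mem _ _ hx

end Pool.Agent.Helper11.Dr
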