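import Mathlib
import Pool.Agent.Helper11.Dr.RelC
import Pool.Agent.Helper11.Dr.Lin2

/-!
# The relation between the determinants on the canonical filtration
-/

universe u v w t

open CategoryTheory TensorProduct Finset Matrix

namespace Pool.Agent.Helper11.Dr

open Pool.Agent.Helper10 hiding IsAlgAut parityPart
open SmProjVar SPre Pool.Agent.Helper10.GIT Pool.Agent.Helper11.Iso Pool.Agent.Helper11.Can
open Pool.Agent.Helper11.GIT
open Pool.Agent.Helper11.Obs (power IsDetOn eigenvalueGroup Stabilises IsSymmetry)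

variable {k : Type u} [Field k] {K : Type v} [Field K] [CharZero K]
  (W : WeilCohomology.{u, v, w} k K) {Ω : Type t} [Field Ω] [Algebra K Ω] [IsAlgClosed Ω]

/-- **The relation between the determinants.** -/
theorem exists_pow_mem_of_optimal {X : SmProjVar k} {P : ℕ} {V : Fin P → SmProjVar k}
    {E : ∀ c, Submodule K (W.H (V c))} {d : Fin P → ℕ} (e : ∀ c, Fin (d c) → W.H (V c))
    {B : Mats d K} (hspan : ∀ c, Submodule.span K (Set.range (e c)) = E c)
    (hGB : ∀ c, gr W (e c) * B c = 1) {n : ℕ} (hn : 2 ≤ n)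
    {h : Mats d (AlgebraicClosure K)} {γ : WSpace d}
    (ho : Optimal (ext (AlgebraicClosure K) (trunc n (kA W e (PowLike X))))
      (ext (AlgebraicClosure K) (trunc n (kN W e (PowLike X)))) h γ)
    {F₀ : ∀ c, ℝ → Submodule K (Fin (d c) → K)}
    (hF₀ : ∀ c a, Submodule.span (AlgebraicClosure K)
      (embV (AlgebraicClosure K) '' (F₀ c a : Set (Fin (d c) → K))) = flag h γ c a)
    {D : ℕ} (hD : 0 < D) (hDγ : ∀ l, ∃ m : ℤ, (D : ℝ) * γ l = m)
    {F : ∀ c, ℝ → Submodule K (W.H (V c))} (hFE : ∀ c a, F c a ≤ E c)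
    (hFF : ∀ c a, F₀ c a = (F c a).map (coorK W (e c)))
    {g : ∀ X : SmProjVar k, Ω ⊗[K] W.H X → Ω ⊗[K] W.H X} {χ : Ω}
    (hg : IsSymmetry W.toCohomologyData Ω g χ) (hgE : ∀ c, Stabilises Ω (g (V c)) (E c))
    (hgF : ∀ c a, Stabilises Ω (g (V c)) (F c a))
    (N : ℕ) (δ : Fin P → Fin N → Ωˣ) (hN : ∀ c, F c (((N + 1 : ℕ) : ℝ) / D) = ⊥)
    (hδ : ∀ c (i : Fin N), IsDetOn Ω (g (V c)) (F c ((((i : ℕ) + 1 : ℕ) : ℝ) / D)) (δ c i : Ω)) :
    ∃ m : ℕ, 0 < m ∧ (∏ c, ∏ i, δ c i) ^ m ∈ eigenvalueGroup W.toCohomologyData X Ω g χ := by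
  classical
  refine exists_pow_mem _ _ fun ψ hψ => ?_
  have hg' : W.IsSymmetry Ω g χ := Obs.isSymmetry W Ω hg
  let uχ : Ωˣ := Units.mk0 χ hg.ne_zero
  have hψχ : ψ uχ = 1 := hψ _ (Subgroup.subset_closure (.inl rfl))
  have hχ : χ ∈ grp Ω ψ.ker := ⟨uχ, hψχ, rfl⟩
  let T₀ : (W.toSPre Ω).Test := W.symTest Ω hg' ψ.ker hχ
  have hT₀ : ∀ X y, T₀.γ.g X y = g X y := fun X y => rfl
  have hT₀U : ∀ u : Ωˣ, (u : Ω) ∈ T₀.U → ψ u = 1 := by
    rintro u ⟨u', hu', huu⟩
    rw [← Units.ext huu]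
    exact hu'
  have hgood : T₀.Good X := by
    intro a y hy0 hy
    have ha : a ≠ 0 := by
      rintro rfl
      rw [zero_smul] at hy
      exact hy0 ((map_eq_zero_iff _ (T₀.γ.g X).injective).mp hy)
    exact ⟨Units.mk0 a ha, hψ _ (Subgroup.subset_closure (.inr ⟨y, hy0, hy⟩)), rfl⟩
  have hgood' : ∀ A, PowLike X A → T₀.Good A := by
    rintro A ⟨m, hA⟩
    exact (hgood.pow m).retract hA
  -- the optimal weights over `Ω`
  let j : AlgebraicClosure K →ₐ[K] Ω := IsAlgClosed.lift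
  have hj : ∀ a : K, (j : AlgebraicClosure K →+* Ω) (algebraMap K (AlgebraicClosure K) a) =
      algebraMap K Ω a := fun a => j.commutes a
  have hoΩ := optimal_map (κ := Ω) (fun h hh => exists_specialize h hh)
    (j : AlgebraicClosure K →+* Ω) hj ho
  set h₁ : Mats d Ω := fun c => (h c).map (j : AlgebraicClosure K →+* Ω) with hh₁
  have hflagΩ : ∀ c a, flag h₁ γ c a =
      Submodule.span Ω (embV Ω '' (F₀ c a : Set (Fin (d c) → K))) :=
    fun c a => flag_map_eq j ho.1.det F₀ hF₀ c a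
  -- the matrices of the symmetry
  have hspanΩ : ∀ c, ∀ y ∈ Obs.bc W Ω (E c),
      y ∈ Submodule.span Ω (Set.range (oneF W e Ω c)) := by
    intro c y hy
    refine Obs.bc_induction W Ω (p := fun y => y ∈ Submodule.span Ω (Set.range (oneF W e Ω c)))
      (fun y hy => ?_) (Submodule.zero_mem _) (fun _ _ => Submodule.add_mem _)
      (fun a _ => Submodule.smul_mem _ a) hy
    rw [← hspan c] at hy
    obtain ⟨v, rfl⟩ := (Submodule.mem_span_range_iff_exists_fun K).mp hy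
    rw [one_sum]
    refine Submodule.sum_mem _ fun b _ => ?_
    rw [one_smul']
    exact Submodule.smul_mem _ _ (Submodule.subset_span ⟨b, rfl⟩)
  have hmemE : ∀ c b, e c b ∈ E c := fun c b => by
    rw [← hspan c]; exact Submodule.subset_span ⟨b, rfl⟩
  have hρ : ∀ c, ∃ ρ : Matrix (Fin (d c)) (Fin (d c)) Ω, ∀ b,
      T₀.γ.g (V c) (oneF W e Ω c b) = ∑ a, ρ a b • oneF W e Ω c a := fun c =>
    exists_matrix_of_span fun b => hspanΩ c _ (hgE c _ (hmemE c b))
  choose ρ hρ using hρ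
  have hGΩ : ∀ c, gmat (W.toSPre Ω) (oneF W e Ω c) = (gr W (e c)).map (algebraMap K Ω) := by
    intro c
    ext i j
    rw [gmat_apply]
    exact Obs.tr_one_mul W Ω _ _
  have hmapGB : ∀ c, (gr W (e c)).map (algebraMap K Ω) * (B c).map (algebraMap K Ω) = 1 := by
    intro c
    rw [← Matrix.map_mul, hGB, Matrix.map_one _ (map_zero _) (map_one _)]
  have hGBΩ : ∀ c, gmat (W.toSPre Ω) (oneF W e Ω c) * (B c).map (algebraMap K Ω) = 1 := by
    intro c
    rw [hGΩ, hmapGB]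
  have hdet : ∀ c, (ρ c).det ≠ 0 := fun c => sym_det (hGBΩ c) T₀.γ (hρ c)
  have hdetT : ∀ c, (((ρ c)⁻¹)ᵀ).det ≠ 0 := fun c => by
    rw [Matrix.det_transpose, Matrix.det_nonsing_inv]
    exact (isUnit_iff_ne_zero.mpr (hdet c)).ringInverse.ne_zero
  have htr : ∀ c x, (W.toSPre Ω).tr (V c) (T₀.γ.g (V c) x) =
      χ ^ (V c).dim * (W.toSPre Ω).tr (V c) x := fun c x => hg'.trace (V c) x
  have hl0 : ∀ c, χ ^ (V c).dim ≠ 0 := fun c => pow_ne_zero _ hg.ne_zero
  have hT : ∀ c a, ∀ x ∈ flag h₁ γ c a, Matrix.mulVecLin ((ρ c)⁻¹)ᵀ x ∈ flag h₁ γ c a := by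
    intro c a x hx
    rw [hflagΩ, hFF] at hx ⊢
    exact mulVec_mem_span W T₀.γ (hl0 c) (htr c) (hdet c) (hρ c) (fun y hy => hgF c a y hy) hx
  -- the determinants
  have hdetR : ∀ c a, LinearMap.det ((Matrix.mulVecLin ((ρ c)⁻¹)ᵀ).restrict (hT c a)) ≠ 0 := by
    intro c a
    have hinj : Function.Injective (Matrix.mulVecLin ((ρ c)⁻¹)ᵀ) := by
      intro x y hxy
      have h1 := congrArg ((((ρ c)⁻¹)ᵀ)⁻¹).mulVec hxy
      simp only [Matrix.mulVecLin_apply] at h1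
      rwa [Matrix.mulVec_mulVec, Matrix.mulVec_mulVec,
        Matrix.nonsing_inv_mul _ (isUnit_iff_ne_zero.mpr (hdetT c)), Matrix.one_mulVec,
        Matrix.one_mulVec] at h1
    have hinj' : Function.Injective ((Matrix.mulVecLin ((ρ c)⁻¹)ᵀ).restrict (hT c a)) := by
      intro x y hxy
      exact Subtype.ext (hinj (congrArg Subtype.val hxy))
    have h1 := (LinearMap.isUnit_iff_ker_eq_bot _).mpr (LinearMap.ker_eq_bot.mpr hinj')
    exact (LinearMap.isUnit_det _ h1).ne_zero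
  let δ' : Fin P → ℕ → Ωˣ := fun c i => Units.mk0 _ (hdetR c ((i : ℝ) / D))
  have hψδ : ∀ c (i : Fin N), ψ (δ c i) = ψ (δ' c (i + 1)) := by
    intro c i
    obtain ⟨m, hm⟩ := det_of_isDetOn W (hGB c) T₀.γ (htr c) (hdet c) (hρ c)
      (F := F c ((((i : ℕ) + 1 : ℕ) : ℝ) / D)) (by rw [hspan c]; exact hFE c _) (hFF c _)
      (hflagΩ c _) (hT c _) (hδ c i)
    have h1 : δ c i = (uχ ^ (V c).dim) ^ m * δ' c (i + 1) := Units.ext hm
    rw [h1, map_mul, map_pow, map_pow, hψχ, one_pow, one_pow, one_mul]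
  have hψdet : ∀ (c : Fin P) (u : Ωˣ), (u : Ω) = (((ρ c)⁻¹)ᵀ).det → ψ u = 1 := by
    intro c u hu
    have h1 := sym_det_sq (hGBΩ c) T₀.γ (htr c) (hρ c)
    have h2 : (u : Ω) * (ρ c).det = 1 := by
      rw [hu, Matrix.det_transpose, ← Matrix.det_mul,
        Matrix.nonsing_inv_mul _ (isUnit_iff_ne_zero.mpr (hdet c)), Matrix.det_one]
    have h3 : u ^ 2 * (uχ ^ (V c).dim) ^ d c = 1 := by
      apply Units.ext
      have h4 : (((u ^ 2 * (uχ ^ (V c).dim) ^ d c : Ωˣ)) : Ω) =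
          (u : Ω) ^ 2 * (χ ^ (V c).dim) ^ d c := rfl
      rw [h4, ← h1, ← mul_pow, h2, one_pow]
      rfl
    have h4 := congrArg ψ h3
    rw [map_mul, map_pow, map_pow, map_pow, hψχ, one_pow, one_pow, mul_one, map_one] at h4
    have h5 : 2 * Multiplicative.toAdd (ψ u) = 0 := by
      have h6 := congrArg Multiplicative.toAdd h4
      rwa [toAdd_pow, toAdd_one, nsmul_eq_mul, Nat.cast_ofNat] at h6
    apply Multiplicative.toAdd.injective
    rw [toAdd_one]
    linarith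
  have hext : ∀ (C : Family d K) (χ : Shape P), ext Ω (trunc n C) χ ⊆ ext Ω C χ := by
    rintro C χ _ ⟨z, hz, rfl⟩
    exact ⟨z, hz.1, rfl⟩
  have hmain := prod_psi_eq_one (A := ext Ω (trunc n (kA W e (PowLike X))))
    (N := ext Ω (trunc n (kN W e (PowLike X))))
    (ext_mono Ω fun χ => trunc_le (kN_subset_kA W e (PowLike X) χ)) hoΩ
    (fun c => (gr W (e c)).map (algebraMap K Ω)) (fun c => (B c).map (algebraMap K Ω)) hmapGB
    (fun c => ⟨_, ⟨gram_mem W e (PowLike.refl X) c, hn⟩, emb_mten Ω c _⟩) hD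
    (fun c a => flag_ceil hD hDγ c a) (fun c => ((ρ c)⁻¹)ᵀ) hT hdetT ψ (by
      intro h' θ hh' hθ w hw
      obtain ⟨z, hz, hne⟩ := hw
      have h1 := mem_U_of_mem_supp (T₀ := T₀) hgood' (oneF W e Ω) ρ hρ hdet h' θ (by
        intro c b
        have h2 := hθ c b
        rwa [Matrix.transpose_transpose] at h2)
        (ext_kA_subset W e (PowLike X) Ω w.1 (hext _ _ hz)) hne
      have h2 := hT₀U _ h1
      rw [map_inv, inv_eq_one, map_prod] at h2
      exact h2) hψdet δ' (fun c i _ => rfl) N (fun c => by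
        rw [hflagΩ, hFF, hN, Submodule.map_bot, Submodule.bot_coe, Set.image_singleton,
          embV_zero, Submodule.span_zero_singleton])
  rw [map_prod, ← hmain]
  refine prod_congr rfl fun c _ => ?_
  rw [map_prod, prod_congr rfl fun i _ => hψδ c i, ← Finset.prod_range
    (fun i => ψ (δ' c (i + 1)))]
  have h9 : Icc 1 N = Ico 1 (N + 1) := by
    ext i
    rw [mem_Icc, mem_Ico]
    omega
  rw [h9, Finset.prod_Ico_eq_prod_range, Nat.add_sub_cancel]
  exact prod_congr rfl fun i _ => by rw [add_comm]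

end Pool.Agent.Helper11.Dr
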