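import Mathlib
import Pool.Agent.Helper11.Dr.Can2

/-!
# Related flags
-/

universe u v w t

open CategoryTheory TensorProduct Finset

namespace Pool.Agent.Helper11.Dr

open Pool.Agent.Helper10 hiding IsAlgAut parityPart
open SmProjVar SPre Pool.Agent.Helper10.GIT Pool.Agent.Helper11.Iso Pool.Agent.Helper11.Can
open Pool.Agent.Helper11.Obs

variable {k : Type u} [Field k] {K : Type v} [Field K] [CharZero K]
  (W : WeilCohomology.{u, v, w} k K)

/-- the pairing of elements of a piece is symmetric up to a sign -/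
lemma pairing_zero_symm {V₀ : SmProjVar k} {E : Submodule K (W.H V₀)} {p : ℕ}
    (hp : E ≤ parityPart W.toCohomologyData V₀ p) {x : W.H V₀} (hx : x ∈ E) {y : W.H V₀}
    (h : W.pairing V₀ y x = 0) : W.pairing V₀ x y = 0 := by
  have h1 : (W.toSPre K).tr V₀ (Obs.one W K x * Obs.one W K y) =
      algebraMap K K (W.pairing V₀ x y) := Obs.tr_one_mul W K x y
  have h2 : (W.toSPre K).tr V₀ (Obs.one W K y * Obs.one W K x) = 0 := by
    rw [Obs.tr_one_mul, h, map_zero]
  refine (algebraMap K K).injective ?_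
  rw [map_zero, ← h1]
  have h3 : (W.toSPre K).tr V₀ (Obs.one W K y * Obs.one W K x) =
      (W.toSPre K).tr V₀ (par (W.toSPre K) V₀ (Obs.one W K x) * Obs.one W K y) := tr_par _ _
  by_cases hp' : Even p
  · rw [par_ev (Obs.one_ev W K (Obs.parityPart_le_evK W hp' (hp hx)))] at h3
    rw [← h3, h2]
  · rw [par_od (Obs.one_od W K (Obs.parityPart_le_odK W hp' (hp hx))), neg_mul, map_neg,
      h2] at h3
    exact neg_eq_zero.mp h3.symm

section

variable {W} {X : SmProjVar k} {P : ℕ} {V : Fin P → SmProjVar k}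
  {E : ∀ c, Submodule K (W.H (V c))} {n : ℕ} {F : ∀ c, ℝ → Submodule K (W.H (V c))}

lemma antitone_of_admissible (hF : IsAdmissible W.toCohomologyData X V E n F) (c : Fin P) :
    Antitone (F c) := fun a a' haa' y hy =>
  (hF.dual c a y (hF.le c a' hy)).mpr fun b hb x hx =>
    (hF.dual c a' y (hF.le c a' hy)).mp hy b (lt_of_le_of_lt (neg_le_neg haa') hb) x hx

lemma isotropic_of_admissible (hF : IsAdmissible W.toCohomologyData X V E n F) (c : Fin P)
    {a : ℝ} (ha : 0 < a) : IsTotallyIsotropic W.toCohomologyData (V c) (F c a) :=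
  fun x hx y hy => (hF.dual c a y (hF.le c a hy)).mp hy a (by linarith) x hx

/-- admissible filtrations are stable under algebraic correspondences -/
lemma corr_of_admissible (hE : ∀ c, IsPiece W.toCohomologyData (V c) (E c)) (hn : 2 ≤ n)
    (hF : IsAdmissible W.toCohomologyData X V E n F) {c c' : Fin P}
    {u : W.H (V c) → W.H (V c')} (hu : W.IsAlgebraicMap (V c) (V c') u)
    (huE : ∀ y ∈ E c, u y ∈ E c') (a : ℝ) {y : W.H (V c)} (hy : y ∈ F c a) : u y ∈ F c' a := by
  obtain ⟨κ, hκ, hκu⟩ := hu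
  have hyE := hF.le c a hy
  refine (hF.dual c' a (u y) (huE y hyE)).mpr fun a' ha' x hx => ?_
  obtain ⟨p, hp⟩ := (hE c').parity
  refine pairing_zero_symm W hp (hF.le c' a' hx) ?_
  rw [hκu]
  obtain ⟨x₀, ⟨-, hx₀⟩, -⟩ := (W.trace X).bijective 1
  let cc : Fin 2 → Fin P := fun i => match i with
    | 0 => c
    | 1 => c'
  let f : ∀ i : Fin 2, (X.prod ((V c).prod (V c'))).toOver ⟶ (V (cc i)).toOver := fun i =>
    match i with
    | 0 => snd X ((V c).prod (V c')) ≫ fst (V c) (V c')
    | 1 => snd X ((V c).prod (V c')) ≫ snd (V c) (V c')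
  let aa : Fin 2 → ℝ := fun i => match i with
    | 0 => a
    | 1 => a'
  let v : ∀ i : Fin 2, W.H (V (cc i)) := fun i => match i with
    | 0 => y
    | 1 => x
  have h1 := hF.alg (X.prod ((V c).prod (V c'))) (a + a') (W.pull (snd X _) κ)
    (wordClass W.toCohomologyData (fst X ((V c).prod (V c'))) f x₀ v) ?_ (by linarith) ?_
  · have hκev : W.pull (snd X ((V c).prod (V c'))) κ ∈ W.algClasses (X.prod ((V c).prod (V c'))) :=
      W.pull_mem_algClasses _ _ hκ
    have h2 : W.pairing (X.prod ((V c).prod (V c'))) (W.pull (snd X _) κ)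
        (wordClass W.toCohomologyData (fst X ((V c).prod (V c'))) f x₀ v) =
        W.tr (X.prod ((V c).prod (V c'))) (W.pull (fst X _) x₀ * W.pull (snd X _)
          (κ * (W.pull (fst (V c) (V c')) y * W.pull (snd (V c) (V c')) x))) := by
      unfold CohomologyData.pairing wordClass
      have h3 : (List.ofFn fun i => W.pull (f i) (v i)).prod =
          W.pull (snd X ((V c).prod (V c'))) (W.pull (fst (V c) (V c')) y *
            W.pull (snd (V c) (V c')) x) := by
        rw [(W.pull_hom _).map_mul]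
        simp only [List.ofFn_succ, List.ofFn_zero, List.prod_cons, List.prod_nil, mul_one]
        rw [← W.pull_comp, ← W.pull_comp]
        rfl
      rw [h3, (W.pull_hom (snd X ((V c).prod (V c')))).map_mul κ, ← mul_assoc, ← mul_assoc,
        W.evK_comm _ _ (W.pull (fst X ((V c).prod (V c'))) x₀) (W.algClasses_le_evK _ hκev)]
    rw [h2, W.tr_prod, hx₀, _root_.one_mul] at h1
    rw [← h1, ← mul_assoc, W.evK_comm _ _ (W.pull (fst (V c) (V c')) y)
      (W.algClasses_le_evK _ hκ)]
  · exact W.pull_mem_algClasses _ _ hκ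
  · refine ⟨0, 2, fst X _, x₀, cc, f, aa, v, hn, fun i => ?_, ?_, rfl⟩
    · match i with
      | 0 => exact hy
      | 1 => exact hx
    · rw [Fin.sum_univ_two]

end

/-- **The canonical filtration is related.** -/
theorem exists_related {X : SmProjVar k} (hX : ∀ n, W.StandardD (power X n)) {P : ℕ}
    (V : Fin P → SmProjVar k) (E : ∀ c, Submodule K (W.H (V c)))
    (hE : ∀ c, IsPiece W.toCohomologyData (V c) (E c)) {n : ℕ} (hn : 2 ≤ n) :
    ∃ F : ∀ c, ℝ → Submodule K (W.H (V c)),
      IsCanonical.{u, v, w, t} W.toCohomologyData X V E n F ∧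
        (NumTrivialOrthogonal W.toCohomologyData X V E n → IsTrivial W.toCohomologyData F) ∧
        ∃ D, IsRelatedFiltration.{u, v, w, t} W.toCohomologyData X V E F D := by
  obtain ⟨F, hF, htriv, D, hD, hjump, hrel⟩ := exists_canonical2.{u, v, w, t} W hX V E hE hn
  refine ⟨F, hF, htriv, D, hD, hjump, ?_⟩
  have had := hF.admissible
  have hD' : (0 : ℝ) < D := by exact_mod_cast hD
  refine ⟨fun c i => had.le c _, fun c i j hij => ?_, ?_, fun c i => ?_, ?_, ?_, ?_⟩
  · refine antitone_of_admissible had c ?_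
    rw [div_le_div_iff_of_pos_right hD']
    exact_mod_cast Nat.succ_le_succ hij
  · obtain ⟨M, hM⟩ := had.bounded
    obtain ⟨N, hN⟩ := exists_nat_ge ((D : ℝ) * M)
    refine ⟨N, fun c => ?_⟩
    rw [eq_bot_iff, ← hM c]
    refine antitone_of_admissible had c ?_
    rw [le_div_iff₀ hD', mul_comm]
    refine hN.trans ?_
    exact_mod_cast Nat.le_succ N
  · exact isotropic_of_admissible had c (div_pos (by positivity) hD')
  · intro c c' u hu huE i y hy
    exact corr_of_admissible hE hn had hu huE _ hy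
  · intro Ω _ _ g χ hg hgE c i
    exact hF.stable Ω g χ hg hgE c _
  · intro Ω _ _ _ g χ hg hgE N δ hN hδ
    exact hrel Ω g χ hg hgE (fun c a => hF.stable Ω g χ hg hgE c a) N δ hN hδ

/-- **The standard conjecture D holds if there are no related flags.** -/
theorem standardD_of_no_flags {X : SmProjVar k} (hX : ∀ n, W.StandardD (power X n)) {P : ℕ}
    (V : Fin P → SmProjVar k) (E : ∀ c, Submodule K (W.H (V c)))
    (hE : ∀ c, IsPiece W.toCohomologyData (V c) (E c))
    (h0 : ∀ F : ∀ c : Fin P, ℕ → Submodule K (W.H (V c)),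
      AreRelatedFlags.{u, v, w, t} W.toCohomologyData X V E F → ∀ c i, F c i = ⊥)
    {n : ℕ} {Y : SmProjVar k} (hY : SpannedBy W.toCohomologyData X V E n Y) :
    W.StandardD Y := by
  obtain ⟨F, hF, -, D, hD⟩ := exists_related.{u, v, w, t} W hX V E hE (n := n + 2) (by omega)
  have hD' : (0 : ℝ) < D := by exact_mod_cast hD.pos
  have h1 := h0 _ hD.related
  have h2 : IsTrivial W.toCohomologyData F := by
    intro c a ha
    rw [hD.jumps]
    have h3 : (0 : ℝ) < D * a := mul_pos hD' ha
    have h4 : 0 < ⌈(D : ℝ) * a⌉ := Int.ceil_pos.mpr h3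
    obtain ⟨i, hi⟩ : ∃ i : ℕ, ⌈(D : ℝ) * a⌉ = ((i + 1 : ℕ) : ℤ) := by
      refine ⟨(⌈(D : ℝ) * a⌉ - 1).toNat, ?_⟩
      push_cast
      omega
    have h5 : ((⌈(D : ℝ) * a⌉ : ℤ) : ℝ) = ((i + 1 : ℕ) : ℝ) := by
      rw [hi]
      norm_cast
    rw [h5]
    exact h1 c i
  have h3 := numTrivialOrthogonal_of_trivial W hF.admissible h2
  refine standardD_of_numTrivialOrthogonal W (n := n) ?_ hY
  rintro T z y hz ⟨m, b, p, x, c, f, a, v, hb, hv, ha, rfl⟩
  exact h3 T z _ hz ⟨m, b, p, x, c, f, a, v, hb.trans (by omega), hv, ha, rfl⟩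

end Pool.Agent.Helper11.Dr
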